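import Pool.Agent.Helper911_Inv.Law

/-!
The probability that there is no circuit joined to infinity.
-/

set_option autoImplicit false
set_option maxHeartbeats 1000000

namespace Pool.Agent.Helper911.Inv

open H974 H31K MeasureTheory ProbabilityTheory

/-- The edges of the box of radius `r` around `x`. -/
noncomputable def bx (x : Vtx) (r : ℕ) : Finset Edg := RE (x.1 - r) (x.1 + r) (x.2 - r) (x.2 + r)

/-- `x` is joined to distance `r`. -/
def XQ (x : Vtx) (r : ℕ) (F : Finset Edg) : Prop :=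
  ∃ u : Vtx, (u.1 ≤ x.1 - r ∨ x.1 + r ≤ u.1 ∨ u.2 ≤ x.2 - r ∨ x.2 + r ≤ u.2) ∧ Reach (↑F) x u

/-- `x` is joined to distance `r` by edges of weight at most `q`. -/
def AX (x : Vtx) (r : ℕ) (q : unitInterval) : Set Wt := {U | XQ x r (FF (bx x r) (thr q U))}

theorem FF_lo (S : Finset Edg) (q : unitInterval) (U : Wt) :
    (↑(FF S (thr q U)) : Set Edg) = lo q U ∩ ↑S := by
  rw [FF_coe, opn_thr]

theorem mem_AX {x : Vtx} {r : ℕ} {q : unitInterval} {U : Wt} {u : Vtx}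
    (hu : u.1 ≤ x.1 - r ∨ x.1 + r ≤ u.1 ∨ u.2 ≤ x.2 - r ∨ x.2 + r ≤ u.2)
    (h : Reach (lo q U) x u) : U ∈ AX x r q := by
  obtain ⟨w, k1, k2, k3⟩ := first_exit (a := x.1 - r) (b := x.1 + r) (c := x.2 - r)
    (d := x.2 + r) (by unfold inR; omega) h hu
  refine ⟨w, by omega, ?_⟩
  rw [FF_lo]
  exact k3

theorem AX_le (x : Vtx) (r : ℕ) (q : unitInterval) : wlaw.real (AX x r q) ≤ arm q r := by
  unfold AX
  rw [wlaw_event]
  exact arm_bound q.2.1 q.2.2 _ x r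

theorem LRs_iff {a b c d : ℤ} {S : Finset Edg} (hS : LRE a b c d ⊆ S) (q : unitInterval)
    (U : Wt) : LRs a b c d (lo q U) ↔ LRc a b c d (FF S (thr q U)) := by
  unfold LRs LRc
  rw [FF_lo, Set.inter_assoc, Set.inter_eq_right.mpr (by exact_mod_cast hS :
    (↑(LRE a b c d) : Set Edg) ⊆ ↑S)]

theorem TBs_iff {a b c d : ℤ} {S : Finset Edg} (hS : TBE a b c d ⊆ S) (q : unitInterval)
    (U : Wt) : TBs a b c d (lo q U) ↔ TBc a b c d (FF S (thr q U)) := by
  unfold TBs TBc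
  rw [FF_lo, Set.inter_assoc, Set.inter_eq_right.mpr (by exact_mod_cast hS :
    (↑(TBE a b c d) : Set Edg) ⊆ ↑S)]

theorem ev_L {q q' : unitInterval} {a b c d : ℤ} {x : Vtx} {r : ℕ}
    (hd : Disjoint (LRE a b c d) (bx x r)) :
    wlaw.real ({U | ¬ LRs a b c d (lo q U)} ∩ AX x r q') ≤
      (1 - hh q (b - a) (d - c)) * arm q' r := by
  have e1 : {U | ¬ LRs a b c d (lo q U)} =
      {U | (fun F => ¬ LRc a b c d F) (FF (LRE a b c d) (thr q U))} := by
    ext U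
    show ¬ _ ↔ ¬ _
    rw [LRs_iff (Finset.Subset.refl _) q U]
  have f1 : wlaw.real {U | (fun F => ¬ LRc a b c d F) (FF (LRE a b c d) (thr q U))} =
      1 - hh q (b - a) (d - c) := by
    rw [wlaw_event q _ (fun F => ¬ LRc a b c d F), Pr_not, pr_LRc _ (Finset.Subset.refl _)]
  rw [e1]
  unfold AX
  rw [indep2 hd q q' (fun F => ¬ LRc a b c d F) (XQ x r), f1]
  apply mul_le_mul_of_nonneg_left (AX_le x r q')
  have := hh_le_one q.2.1 q.2.2 (b - a) (d - c)
  linarith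

theorem ev_T {q q' : unitInterval} {a b c d : ℤ} {x : Vtx} {r : ℕ}
    (hd : Disjoint (TBE a b c d) (bx x r)) :
    wlaw.real ({U | ¬ TBs a b c d (lo q U)} ∩ AX x r q') ≤
      (1 - hh q (d - c) (b - a)) * arm q' r := by
  have e1 : {U | ¬ TBs a b c d (lo q U)} =
      {U | (fun F => ¬ TBc a b c d F) (FF (TBE a b c d) (thr q U))} := by
    ext U
    show ¬ _ ↔ ¬ _
    rw [TBs_iff (Finset.Subset.refl _) q U]
  have f1 : wlaw.real {U | (fun F => ¬ TBc a b c d F) (FF (TBE a b c d) (thr q U))} =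
      1 - hh q (d - c) (b - a) := by
    rw [wlaw_event q _ (fun F => ¬ TBc a b c d F), Pr_not, pr_TBc _ (Finset.Subset.refl _)]
  rw [e1]
  unfold AX
  rw [indep2 hd q q' (fun F => ¬ TBc a b c d F) (XQ x r), f1]
  apply mul_le_mul_of_nonneg_left (AX_le x r q')
  have := hh_le_one q.2.1 q.2.2 (d - c) (b - a)
  linarith

/-- No circuit joined to infinity, on the side opposite to `x`. -/
def Bad (x : Vtx) (m : ℤ) (q : unitInterval) : Set Wt :=
  {U | ¬ (CircS m (2 * m) (lo q U) ∧ if 0 ≤ x.1 then ChL m (lo q U) else ChR m (lo q U))}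

theorem union_le {E : ℕ → Set Wt} {a : ℝ} (ha : 0 ≤ a)
    (h : ∀ k, wlaw.real (E k) ≤ a * (1/4)^k) : wlaw.real (⋃ k, E k) ≤ a * (4/3) := by
  have h1 : wlaw (⋃ k, E k) ≤ ∑' k, wlaw (E k) := measure_iUnion_le E
  have h2 : ∀ k, wlaw (E k) ≤ ENNReal.ofReal (a * (1/4)^k) := by
    intro k
    rw [← ofReal_measureReal (measure_ne_top _ _)]
    exact ENNReal.ofReal_le_ofReal (h k)
  have hs : Summable (fun k : ℕ => a * (1/4 : ℝ)^k) :=
    (summable_geometric_of_lt_one (by norm_num) (by norm_num)).mul_left a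
  have h3 : ∑' k, wlaw (E k) ≤ ENNReal.ofReal (a * (4/3)) := by
    calc ∑' k, wlaw (E k) ≤ ∑' k, ENNReal.ofReal (a * (1/4)^k) := ENNReal.tsum_le_tsum h2
      _ = ENNReal.ofReal (∑' k : ℕ, a * (1/4)^k) :=
          (ENNReal.ofReal_tsum_of_nonneg (fun k => by positivity) hs).symm
      _ = ENNReal.ofReal (a * (4/3)) := by
          rw [tsum_mul_left, tsum_geometric_of_lt_one (by norm_num) (by norm_num)]
          norm_num
  have h4 := ENNReal.toReal_mono ENNReal.ofReal_ne_top (h1.trans h3)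
  rw [ENNReal.toReal_ofReal (by positivity)] at h4
  exact h4

/-- The separation of the box around `x` from the rectangles. -/
structure Sep (x : Vtx) (m : ℤ) (r : ℕ) : Prop where
  pos : 1 ≤ m
  le : (r:ℤ) ≤ m
  c1 : Disjoint (RE (-(2 * m)) (2 * m) m (2 * m)) (bx x r)
  c2 : Disjoint (RE (-(2 * m)) (2 * m) (-(2 * m)) (-m)) (bx x r)
  c3 : Disjoint (RE m (2 * m) (-(2 * m)) (2 * m)) (bx x r)
  c4 : Disjoint (RE (-(2 * m)) (-m) (-(2 * m)) (2 * m)) (bx x r)

theorem bad_le {A : ℝ} {q q' : unitInterval} {x : Vtx} {m : ℕ} {r : ℕ}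
    (hS : Sep x m r) (hA : 0 ≤ A)
    (hH : ∀ w h : ℕ, 1 ≤ w → 1 ≤ h → w ≤ 8 * h → h ≤ 8 * w →
      1 - hh q w h ≤ A / (w:ℝ)^2) :
    wlaw.real (Bad x m q ∩ AX x r q') ≤ 8 * A / (m:ℝ)^2 * arm q' r := by
  have hm : 1 ≤ m := by exact_mod_cast hS.pos
  have hm0 : (0:ℝ) < m := by exact_mod_cast hm
  have hr := hS.le
  obtain ⟨a, ha⟩ : ∃ a, a = arm q' r := ⟨_, rfl⟩
  have ha0 : 0 ≤ a := by rw [ha]; exact arm_nonneg q'.2.1 q'.2.2 r
  -- the four crossings of the annulus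
  have hc : 1 - hh q (4 * (m:ℤ)) m ≤ A / (m:ℝ)^2 := by
    have h1 := hH (4 * m) m (by omega) hm (by omega) (by omega)
    push_cast at h1
    refine h1.trans ?_
    apply div_le_div_of_nonneg_left hA (by positivity)
    nlinarith
  have k1 : wlaw.real ({U | ¬ LRs (-(2 * (m:ℤ))) (2 * m) m (2 * m) (lo q U)} ∩ AX x r q') ≤
      A / (m:ℝ)^2 * a := by
    refine (ev_L (Finset.disjoint_of_subset_left LRE_subset_RE hS.c1)).trans ?_
    rw [← ha]
    apply mul_le_mul_of_nonneg_right _ ha0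
    rw [show (2 * (m:ℤ)) - -(2 * m) = 4 * m by ring, show 2 * (m:ℤ) - m = m by ring]
    exact hc
  have k2 : wlaw.real ({U | ¬ LRs (-(2 * (m:ℤ))) (2 * m) (-(2 * m)) (-m) (lo q U)} ∩
      AX x r q') ≤ A / (m:ℝ)^2 * a := by
    refine (ev_L (Finset.disjoint_of_subset_left LRE_subset_RE hS.c2)).trans ?_
    rw [← ha]
    apply mul_le_mul_of_nonneg_right _ ha0
    rw [show (2 * (m:ℤ)) - -(2 * m) = 4 * m by ring, show -(m:ℤ) - -(2 * m) = m by ring]
    exact hc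
  have k3 : wlaw.real ({U | ¬ TBs (m:ℤ) (2 * m) (-(2 * m)) (2 * m) (lo q U)} ∩ AX x r q') ≤
      A / (m:ℝ)^2 * a := by
    refine (ev_T (Finset.disjoint_of_subset_left TBE_subset_RE hS.c3)).trans ?_
    rw [← ha]
    apply mul_le_mul_of_nonneg_right _ ha0
    rw [show (2 * (m:ℤ)) - -(2 * m) = 4 * m by ring, show 2 * (m:ℤ) - m = m by ring]
    exact hc
  have k4 : wlaw.real ({U | ¬ TBs (-(2 * (m:ℤ))) (-m) (-(2 * m)) (2 * m) (lo q U)} ∩
      AX x r q') ≤ A / (m:ℝ)^2 * a := by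
    refine (ev_T (Finset.disjoint_of_subset_left TBE_subset_RE hS.c4)).trans ?_
    rw [← ha]
    apply mul_le_mul_of_nonneg_right _ ha0
    rw [show (2 * (m:ℤ)) - -(2 * m) = 4 * m by ring, show -(m:ℤ) - -(2 * m) = m by ring]
    exact hc
  -- the chain
  have hpk : ∀ k : ℕ, (0:ℤ) < 2 ^ k * m := fun k => by positivity
  have hpk2 : ∀ k : ℕ, (m:ℤ) ≤ 2 ^ k * m := by
    intro k
    have : (1:ℤ) ≤ 2 ^ k := one_le_pow₀ (by norm_num)
    nlinarith
  have hbd1 : ∀ k : ℕ, 1 - hh q (7 * (2 ^ k * (m:ℤ))) (2 * (2 ^ k * m)) ≤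
      A / (m:ℝ)^2 * (1/4)^k := by
    intro k
    have hpn : 0 < 2 ^ k * m := by positivity
    have h1 := hH (7 * (2 ^ k * m)) (2 * (2 ^ k * m)) (by omega)
      (by omega) (by omega) (by omega)
    push_cast at h1
    refine h1.trans ?_
    have e : A / (m:ℝ)^2 * (1/4)^k = A / ((2:ℝ)^k * m)^2 := by
      have h4 : (4:ℝ)^k = (2^k)^2 := by rw [← pow_mul, mul_comm, pow_mul]; norm_num
      rw [one_div, inv_pow, h4]
      field_simp
    rw [e]
    apply div_le_div_of_nonneg_left hA (by positivity)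
    have : 0 < (2:ℝ)^k * m := by positivity
    nlinarith
  have hbd2 : ∀ k : ℕ, 1 - hh q (4 * (2 ^ k * (m:ℤ))) (4 * (2 ^ k * m)) ≤
      A / (m:ℝ)^2 * (1/4)^k := by
    intro k
    have hpn : 0 < 2 ^ k * m := by positivity
    have h1 := hH (4 * (2 ^ k * m)) (4 * (2 ^ k * m)) (by omega)
      (by omega) (by omega) (by omega)
    push_cast at h1
    refine h1.trans ?_
    have e : A / (m:ℝ)^2 * (1/4)^k = A / ((2:ℝ)^k * m)^2 := by
      have h4 : (4:ℝ)^k = (2^k)^2 := by rw [← pow_mul, mul_comm, pow_mul]; norm_num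
      rw [one_div, inv_pow, h4]
      field_simp
    rw [e]
    apply div_le_div_of_nonneg_left hA (by positivity)
    have : 0 < (2:ℝ)^k * m := by positivity
    nlinarith
  obtain ⟨E1, E2, hcov, hE1, hE2⟩ : ∃ E1 E2 : ℕ → Set Wt,
      Bad x m q ⊆ ({U | ¬ LRs (-(2 * (m:ℤ))) (2 * m) m (2 * m) (lo q U)} ∪
        {U | ¬ LRs (-(2 * (m:ℤ))) (2 * m) (-(2 * m)) (-m) (lo q U)}) ∪
        ({U | ¬ TBs (m:ℤ) (2 * m) (-(2 * m)) (2 * m) (lo q U)} ∪
        {U | ¬ TBs (-(2 * (m:ℤ))) (-m) (-(2 * m)) (2 * m) (lo q U)}) ∪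
        ((⋃ k, E1 k) ∪ (⋃ k, E2 k)) ∧
      (∀ k, wlaw.real (E1 k ∩ AX x r q') ≤ (A / (m:ℝ)^2 * a) * (1/4)^k) ∧
      (∀ k, wlaw.real (E2 k ∩ AX x r q') ≤ (A / (m:ℝ)^2 * a) * (1/4)^k) := by
    by_cases hx : 0 ≤ x.1
    · refine ⟨fun k => {U | ¬ LRs (-(8 * (2 ^ k * (m:ℤ)))) (-(2 ^ k * m)) (-(2 ^ k * m))
          (2 ^ k * m) (lo q U)}, fun k => {U | ¬ TBs (-(8 * (2 ^ k * (m:ℤ))))
          (-(4 * (2 ^ k * m))) (-(2 * (2 ^ k * m))) (2 * (2 ^ k * m)) (lo q U)}, ?_, ?_, ?_⟩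
      · intro U hU
        have hU' : ¬ (CircS m (2 * m) (lo q U) ∧
          if 0 ≤ x.1 then ChL m (lo q U) else ChR m (lo q U)) := hU
        rw [if_pos hx] at hU'
        by_contra hcon
        apply hU'
        simp only [Set.mem_union, Set.mem_ofPred_eq, Set.mem_iUnion, not_or, not_exists,
          not_not] at hcon
        obtain ⟨⟨⟨g1, g2⟩, g3, g4⟩, g5, g6⟩ := hcon
        exact ⟨⟨⟨g1, g2⟩, g3, g4⟩, fun k => ⟨g5 k, g6 k⟩⟩
      · intro k
        have hp := hpk2 k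
        have hd : Disjoint (LRE (-(8 * (2 ^ k * (m:ℤ)))) (-(2 ^ k * m)) (-(2 ^ k * m))
            (2 ^ k * m)) (bx x r) := by
          rw [Finset.disjoint_left]
          rintro ⟨X, Y, _ | _⟩ he1 he2
          · rw [mem_LRE_false] at he1
            unfold bx at he2
            rw [mem_RE_false] at he2
            omega
          · rw [mem_LRE_true] at he1
            unfold bx at he2
            rw [mem_RE_true] at he2
            omega
        refine (ev_L hd).trans ?_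
        rw [← ha, show -(2 ^ k * (m:ℤ)) - -(8 * (2 ^ k * m)) = 7 * (2 ^ k * m) by ring,
          show 2 ^ k * (m:ℤ) - -(2 ^ k * m) = 2 * (2 ^ k * m) by ring]
        calc _ ≤ (A / (m:ℝ)^2 * (1/4)^k) * a := mul_le_mul_of_nonneg_right (hbd1 k) ha0
          _ = _ := by ring
      · intro k
        have hp := hpk2 k
        have hp0 := hpk k
        have hd : Disjoint (TBE (-(8 * (2 ^ k * (m:ℤ)))) (-(4 * (2 ^ k * m)))
            (-(2 * (2 ^ k * m))) (2 * (2 ^ k * m))) (bx x r) := by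
          rw [Finset.disjoint_left]
          rintro ⟨X, Y, _ | _⟩ he1 he2
          · rw [mem_TBE_false] at he1
            unfold bx at he2
            rw [mem_RE_false] at he2
            omega
          · rw [mem_TBE_true] at he1
            unfold bx at he2
            rw [mem_RE_true] at he2
            omega
        refine (ev_T hd).trans ?_
        rw [← ha, show -(4 * (2 ^ k * (m:ℤ))) - -(8 * (2 ^ k * m)) = 4 * (2 ^ k * m) by ring,
          show 2 * (2 ^ k * (m:ℤ)) - -(2 * (2 ^ k * m)) = 4 * (2 ^ k * m) by ring]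
        calc _ ≤ (A / (m:ℝ)^2 * (1/4)^k) * a := mul_le_mul_of_nonneg_right (hbd2 k) ha0
          _ = _ := by ring
    · refine ⟨fun k => {U | ¬ LRs (2 ^ k * (m:ℤ)) (8 * (2 ^ k * m)) (-(2 ^ k * m))
          (2 ^ k * m) (lo q U)}, fun k => {U | ¬ TBs (4 * (2 ^ k * (m:ℤ)))
          (8 * (2 ^ k * m)) (-(2 * (2 ^ k * m))) (2 * (2 ^ k * m)) (lo q U)}, ?_, ?_, ?_⟩
      · intro U hU
        have hU' : ¬ (CircS m (2 * m) (lo q U) ∧
          if 0 ≤ x.1 then ChL m (lo q U) else ChR m (lo q U)) := hU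
        rw [if_neg hx] at hU'
        by_contra hcon
        apply hU'
        simp only [Set.mem_union, Set.mem_ofPred_eq, Set.mem_iUnion, not_or, not_exists,
          not_not] at hcon
        obtain ⟨⟨⟨g1, g2⟩, g3, g4⟩, g5, g6⟩ := hcon
        exact ⟨⟨⟨g1, g2⟩, g3, g4⟩, fun k => ⟨g5 k, g6 k⟩⟩
      · intro k
        have hp := hpk2 k
        have hd : Disjoint (LRE (2 ^ k * (m:ℤ)) (8 * (2 ^ k * m)) (-(2 ^ k * m))
            (2 ^ k * m)) (bx x r) := by
          rw [Finset.disjoint_left]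
          rintro ⟨X, Y, _ | _⟩ he1 he2
          · rw [mem_LRE_false] at he1
            unfold bx at he2
            rw [mem_RE_false] at he2
            omega
          · rw [mem_LRE_true] at he1
            unfold bx at he2
            rw [mem_RE_true] at he2
            omega
        refine (ev_L hd).trans ?_
        rw [← ha, show 8 * (2 ^ k * (m:ℤ)) - 2 ^ k * m = 7 * (2 ^ k * m) by ring,
          show 2 ^ k * (m:ℤ) - -(2 ^ k * m) = 2 * (2 ^ k * m) by ring]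
        calc _ ≤ (A / (m:ℝ)^2 * (1/4)^k) * a := mul_le_mul_of_nonneg_right (hbd1 k) ha0
          _ = _ := by ring
      · intro k
        have hp := hpk2 k
        have hp0 := hpk k
        have hd : Disjoint (TBE (4 * (2 ^ k * (m:ℤ))) (8 * (2 ^ k * m))
            (-(2 * (2 ^ k * m))) (2 * (2 ^ k * m))) (bx x r) := by
          rw [Finset.disjoint_left]
          rintro ⟨X, Y, _ | _⟩ he1 he2
          · rw [mem_TBE_false] at he1
            unfold bx at he2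
            rw [mem_RE_false] at he2
            omega
          · rw [mem_TBE_true] at he1
            unfold bx at he2
            rw [mem_RE_true] at he2
            omega
        refine (ev_T hd).trans ?_
        rw [← ha, show 8 * (2 ^ k * (m:ℤ)) - 4 * (2 ^ k * m) = 4 * (2 ^ k * m) by ring,
          show 2 * (2 ^ k * (m:ℤ)) - -(2 * (2 ^ k * m)) = 4 * (2 ^ k * m) by ring]
        calc _ ≤ (A / (m:ℝ)^2 * (1/4)^k) * a := mul_le_mul_of_nonneg_right (hbd2 k) ha0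
          _ = _ := by ring
  have hAa : 0 ≤ A / (m:ℝ)^2 * a := by positivity
  have u1 := union_le hAa hE1
  have u2 := union_le hAa hE2
  have hsub : Bad x m q ∩ AX x r q' ⊆
      ((({U | ¬ LRs (-(2 * (m:ℤ))) (2 * m) m (2 * m) (lo q U)} ∩ AX x r q') ∪
        ({U | ¬ LRs (-(2 * (m:ℤ))) (2 * m) (-(2 * m)) (-m) (lo q U)} ∩ AX x r q')) ∪
        (({U | ¬ TBs (m:ℤ) (2 * m) (-(2 * m)) (2 * m) (lo q U)} ∩ AX x r q') ∪
        ({U | ¬ TBs (-(2 * (m:ℤ))) (-m) (-(2 * m)) (2 * m) (lo q U)} ∩ AX x r q'))) ∪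
        ((⋃ k, (E1 k ∩ AX x r q')) ∪ (⋃ k, (E2 k ∩ AX x r q'))) := by
    rintro U ⟨hU, hX⟩
    have := hcov hU
    simp only [Set.mem_union, Set.mem_iUnion, Set.mem_inter_iff] at this ⊢
    rcases this with ((h | h) | (h | h)) | (⟨k, h⟩ | ⟨k, h⟩)
    · exact Or.inl (Or.inl (Or.inl ⟨h, hX⟩))
    · exact Or.inl (Or.inl (Or.inr ⟨h, hX⟩))
    · exact Or.inl (Or.inr (Or.inl ⟨h, hX⟩))
    · exact Or.inl (Or.inr (Or.inr ⟨h, hX⟩))
    · exact Or.inr (Or.inl ⟨k, h, hX⟩)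
    · exact Or.inr (Or.inr ⟨k, h, hX⟩)
  have t0 := measureReal_mono (μ := wlaw) hsub
  refine t0.trans ?_
  refine (measureReal_union_le _ _).trans ?_
  have t1 := measureReal_union_le (μ := wlaw)
    (({U | ¬ LRs (-(2 * (m:ℤ))) (2 * m) m (2 * m) (lo q U)} ∩ AX x r q') ∪
        ({U | ¬ LRs (-(2 * (m:ℤ))) (2 * m) (-(2 * m)) (-m) (lo q U)} ∩ AX x r q'))
    (({U | ¬ TBs (m:ℤ) (2 * m) (-(2 * m)) (2 * m) (lo q U)} ∩ AX x r q') ∪
        ({U | ¬ TBs (-(2 * (m:ℤ))) (-m) (-(2 * m)) (2 * m) (lo q U)} ∩ AX x r q'))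
  have t2 := measureReal_union_le (μ := wlaw)
    ({U | ¬ LRs (-(2 * (m:ℤ))) (2 * m) m (2 * m) (lo q U)} ∩ AX x r q')
    ({U | ¬ LRs (-(2 * (m:ℤ))) (2 * m) (-(2 * m)) (-m) (lo q U)} ∩ AX x r q')
  have t3 := measureReal_union_le (μ := wlaw)
    ({U | ¬ TBs (m:ℤ) (2 * m) (-(2 * m)) (2 * m) (lo q U)} ∩ AX x r q')
    ({U | ¬ TBs (-(2 * (m:ℤ))) (-m) (-(2 * m)) (2 * m) (lo q U)} ∩ AX x r q')
  have t4 := measureReal_union_le (μ := wlaw) (⋃ k, (E1 k ∩ AX x r q'))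
    (⋃ k, (E2 k ∩ AX x r q'))
  rw [← ha]
  have e8 : 8 * A / (m:ℝ)^2 * a = 8 * (A / (m:ℝ)^2 * a) := by ring
  rw [e8]
  linarith

end Pool.Agent.Helper911.Inv
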