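import Pool.Agent.Helper911_Inv.Inv

/-!
Circuits, chains of crossings, and the invasion.
-/

set_option autoImplicit false
set_option maxHeartbeats 1000000

namespace Pool.Agent.Helper911.Inv

open H974 H31K

/-- Left-right crossing by the edges of a set. -/
def LRs (a b c d : ℤ) (G : Set Edg) : Prop :=
  ∃ y y', (c ≤ y ∧ y ≤ d) ∧ (c ≤ y' ∧ y' ≤ d) ∧ Reach (G ∩ ↑(LRE a b c d)) (a, y) (b, y')

/-- Top-bottom crossing by the edges of a set. -/
def TBs (a b c d : ℤ) (G : Set Edg) : Prop :=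
  ∃ x x', (a ≤ x ∧ x ≤ b) ∧ (a ≤ x' ∧ x' ≤ b) ∧ Reach (G ∩ ↑(TBE a b c d)) (x, c) (x', d)

/-- Four crossings around an annulus. -/
def CircS (R1 R2 : ℤ) (G : Set Edg) : Prop :=
  (LRs (-R2) R2 R1 R2 G ∧ LRs (-R2) R2 (-R2) (-R1) G) ∧
    (TBs R1 R2 (-R2) R2 G ∧ TBs (-R2) (-R1) (-R2) R2 G)

/-- The edges of the square `[-R, R]²`. -/
noncomputable def Sq (R : ℤ) : Set Edg := ↑(RE (-R) R (-R) R)

theorem circ_hit {G : Set Edg} {R1 R2 : ℤ} (h1 : 0 ≤ R1) (h2 : R1 < R2) (h : CircS R1 R2 G) :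
    ∃ l l' r r' : ℤ, (-R2 ≤ l ∧ l ≤ -R1) ∧ (R1 ≤ r ∧ r ≤ R2) ∧
      Reach (G ∩ ↑(TBE (-R2) (-R1) (-R2) R2)) (l, -R2) (l', R2) ∧
      Reach (G ∩ ↑(TBE R1 R2 (-R2) R2)) (r, -R2) (r', R2) ∧
      Reach (G ∩ Sq R2) (r, -R2) (l, -R2) ∧
      ∀ G' : Set Edg, G ⊆ G' → ∀ u v : Vtx, inR (-R1) R1 (-R1) R1 u →
        (v.1 = -R2 ∨ v.1 = R2 ∨ v.2 = -R2 ∨ v.2 = R2) →
        Reach (G' ∩ Sq R2) u v → Reach (G' ∩ Sq R2) u (r, -R2) := by
  obtain ⟨⟨⟨t, t', ht, ht', hT⟩, ⟨b, b', hb, hb', hB⟩⟩, ⟨r, r', hr, hr', hR⟩,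
    ⟨l, l', hl, hl', hL⟩⟩ := h
  have key : ∀ G' : Set Edg, G ⊆ G' →
      Reach (G' ∩ Sq R2) (-R2, t) (r, -R2) ∧ Reach (G' ∩ Sq R2) (-R2, b) (r, -R2) ∧
      Reach (G' ∩ Sq R2) (-R2, t) (l, -R2) := by
    intro G' hG
    have hT' : Reach (G' ∩ ↑(RE (-R2) R2 R1 R2)) (-R2, t) (R2, t') := hT.mono
      (Set.inter_subset_inter hG (by exact_mod_cast LRE_subset_RE))
    have hB' : Reach (G' ∩ ↑(RE (-R2) R2 (-R2) (-R1))) (-R2, b) (R2, b') := hB.mono
      (Set.inter_subset_inter hG (by exact_mod_cast LRE_subset_RE))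
    have hR' : Reach (G' ∩ ↑(RE R1 R2 (-R2) R2)) (r, -R2) (r', R2) := hR.mono
      (Set.inter_subset_inter hG (by exact_mod_cast TBE_subset_RE))
    have hL' : Reach (G' ∩ ↑(RE (-R2) (-R1) (-R2) R2)) (l, -R2) (l', R2) := hL.mono
      (Set.inter_subset_inter hG (by exact_mod_cast TBE_subset_RE))
    refine ⟨?_, ?_, ?_⟩
    · exact cross_meet (by omega) h2 le_rfl (by omega) h2 le_rfl hT' (by simp only; omega) le_rfl
        hR' (by simp only; omega) le_rfl
    · exact cross_meet (by omega) h2 le_rfl le_rfl (by omega) (by omega) hB' (by simp only; omega)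
        le_rfl hR' le_rfl (by simp only; omega)
    · exact cross_meet le_rfl (by omega) (by omega) (by omega) h2 le_rfl hT' le_rfl
        (by simp only; omega) hL' (by simp only; omega) le_rfl
  refine ⟨l, l', r, r', hl, hr, hL, hR, ?_, ?_⟩
  · obtain ⟨k1, -, k3⟩ := key G subset_rfl
    exact k1.symm.trans k3
  · intro G' hG u v hu hv hP
    obtain ⟨mTR, mBR, mTL⟩ := key G' hG
    have hR' : Reach (G' ∩ ↑(RE R1 R2 (-R2) R2)) (r, -R2) (r', R2) := hR.mono
      (Set.inter_subset_inter hG (by exact_mod_cast TBE_subset_RE))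
    have hL' : Reach (G' ∩ ↑(RE (-R2) (-R1) (-R2) R2)) (l, -R2) (l', R2) := hL.mono
      (Set.inter_subset_inter hG (by exact_mod_cast TBE_subset_RE))
    have hT' : Reach (G' ∩ ↑(RE (-R2) R2 R1 R2)) (-R2, t) (R2, t') := hT.mono
      (Set.inter_subset_inter hG (by exact_mod_cast LRE_subset_RE))
    have hB' : Reach (G' ∩ ↑(RE (-R2) R2 (-R2) (-R1))) (-R2, b) (R2, b') := hB.mono
      (Set.inter_subset_inter hG (by exact_mod_cast LRE_subset_RE))
    unfold inR at hu
    rcases hv with hv | hv | hv | hv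
    · have m : Reach (G' ∩ Sq R2) v (l, -R2) :=
        cross_meet le_rfl (by omega) (by omega) le_rfl (by omega) le_rfl hP.symm hv.le
          (show -R1 ≤ u.1 by omega) hL' le_rfl le_rfl
      exact hP.trans (m.trans (mTL.symm.trans mTR))
    · exact cross_meet (by omega) h2 le_rfl le_rfl (by omega) le_rfl hP (by omega) hv.ge hR' le_rfl
        le_rfl
    · have m : Reach (G' ∩ Sq R2) (-R2, b) v :=
        cross_meet le_rfl (by omega) le_rfl le_rfl (by omega) (by omega) hB' le_rfl le_rfl hP.symm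
          hv.le (show -R1 ≤ u.2 by omega)
      exact hP.trans (m.symm.trans mBR)
    · have m : Reach (G' ∩ Sq R2) (-R2, t) u :=
        cross_meet le_rfl (by omega) le_rfl (by omega) h2 le_rfl hT' le_rfl le_rfl hP
          (by omega) hv.ge
      exact m.symm.trans mTR

/-- A set which avoids the cluster of the circuit does not cross the annulus. -/
theorem circ_sep {G : Set Edg} {R2 : ℤ} {z : Vtx} {R1 : ℤ}
    (hz : ∀ G' : Set Edg, G ⊆ G' → ∀ u v : Vtx, inR (-R1) R1 (-R1) R1 u →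
        (v.1 = -R2 ∨ v.1 = R2 ∨ v.2 = -R2 ∨ v.2 = R2) →
        Reach (G' ∩ Sq R2) u v → Reach (G' ∩ Sq R2) u z) (h2 : R1 < R2)
    {A : Set Vtx} (hA : ∀ w ∈ A, ¬ Reach (G ∩ Sq R2) z w) {u v : Vtx} (hu : u ∈ A)
    (hu' : inR (-R1) R1 (-R1) R1 u) (hr : Reach (Ed A) u v) :
    ¬ (v.1 ≤ -R2 ∨ R2 ≤ v.1 ∨ v.2 ≤ -R2 ∨ R2 ≤ v.2) := by
  intro hv
  obtain ⟨w, k1, k2, k3⟩ := first_exit (a := -R2) (b := R2) (c := -R2) (d := R2)
    (by unfold inR at hu' ⊢; omega) hr hv
  have h3 : Reach ((G ∪ Ed A) ∩ Sq R2) u w :=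
    k3.mono (Set.inter_subset_inter_left _ Set.subset_union_right)
  have h4 := hz (G ∪ Ed A) Set.subset_union_left u w hu' k2 h3
  have h5 : ∀ y, Reach ((G ∪ Ed A) ∩ Sq R2) z y → Reach (G ∩ Sq R2) z y := by
    intro y hy
    induction hy with
    | refl => exact Reach.refl _ _
    | @tail y y' _ hs ih =>
      obtain ⟨f, ⟨hf, hfS⟩, hc⟩ := hs
      rcases hf with hf | hf
      · exact ih.trans (Adj.reach ⟨f, ⟨hf, hfS⟩, hc⟩)
      · exfalso
        apply hA y _ ih
        rcases hc with ⟨h6, -⟩ | ⟨-, h6⟩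
        · rw [← h6]; exact hf.1
        · rw [← h6]; exact hf.2
  exact hA u hu (h5 u h4.symm)

/-- A chain of crossings gives an infinite cluster. -/
theorem chain_inf {G : Set Edg} {aH bH aV bV h : ℕ → ℤ} (h0 : ∀ k, 0 < h k)
    (h1 : ∀ k, h (k + 1) = 2 * h k) (h2 : ∀ k, aH k ≤ aV k) (h3 : ∀ k, aV k < bV k)
    (h4 : ∀ k, bV k ≤ bH k) (h5 : ∀ k, aH (k + 1) ≤ aV k) (h6 : ∀ k, bV k ≤ bH (k + 1))
    (hH : ∀ k, LRs (aH k) (bH k) (-h k) (h k) G)
    (hV : ∀ k, TBs (aV k) (bV k) (-(2 * h k)) (2 * h k) G) (hinj : Function.Injective aH)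
    {y0 y0' : ℤ} (hr : Reach (G ∩ ↑(LRE (aH 0) (bH 0) (-h 0) (h 0))) (aH 0, y0) (bH 0, y0')) :
    {w | Reach G (aH 0, y0) w}.Infinite := by
  have key : ∀ k, ∃ y y' : ℤ, Reach (G ∩ ↑(LRE (aH k) (bH k) (-h k) (h k))) (aH k, y) (bH k, y') ∧
      Reach G (aH 0, y0) (aH k, y) := by
    intro k
    induction k with
    | zero => exact ⟨y0, y0', hr, Reach.refl _ _⟩
    | succ k ih =>
      obtain ⟨y, y', k1, k2⟩ := ih
      obtain ⟨y2, y2', -, -, l1⟩ := hH (k + 1)
      obtain ⟨x, x', hx, hx', l2⟩ := hV k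
      have e1 : Reach (G ∩ ↑(RE (aH k) (bH k) (-h k) (h k))) (aH k, y) (bH k, y') :=
        k1.mono (Set.inter_subset_inter_right _ (by exact_mod_cast LRE_subset_RE))
      have e2 : Reach (G ∩ ↑(RE (aV k) (bV k) (-(2 * h k)) (2 * h k))) (x, -(2 * h k))
          (x', 2 * h k) :=
        l2.mono (Set.inter_subset_inter_right _ (by exact_mod_cast TBE_subset_RE))
      have e3 : Reach (G ∩ ↑(RE (aH (k + 1)) (bH (k + 1)) (-(2 * h k)) (2 * h k)))
          (aH (k + 1), y2) (bH (k + 1), y2') := by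
        rw [h1 k] at l1
        exact l1.mono (Set.inter_subset_inter_right _ (by exact_mod_cast LRE_subset_RE))
      have p0 := h0 k
      have m1 : Reach (G ∩ ↑(RE (aH k) (bH k) (-(2 * h k)) (2 * h k))) (aH k, y)
          (x, -(2 * h k)) :=
        cross_meet (h2 k) (h3 k) (h4 k) (by omega) (by omega) (by omega) e1 (h2 k) (h4 k) e2
          (by simp only; omega) (by simp only; omega)
      have m2 : Reach (G ∩ ↑(RE (aH (k + 1)) (bH (k + 1)) (-(2 * h k)) (2 * h k)))
          (aH (k + 1), y2) (x, -(2 * h k)) :=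
        cross_meet (h5 k) (h3 k) (h6 k) le_rfl (by omega) le_rfl e3 (h5 k) (h6 k) e2
          le_rfl le_rfl
      exact ⟨y2, y2', l1, k2.trans ((m1.mono Set.inter_subset_left).trans
        (m2.symm.mono Set.inter_subset_left))⟩
  choose y y' k1 k2 using key
  apply Set.infinite_of_injective_forall_mem (f := fun k => ((aH k, y k) : Vtx))
  · intro a b hab
    exact hinj (congrArg Prod.fst hab)
  · intro k
    exact k2 k

/-- The crossings to the left of the circuit. -/
def ChL (m : ℤ) (G : Set Edg) : Prop := ∀ k : ℕ,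
  LRs (-(8 * (2 ^ k * m))) (-(2 ^ k * m)) (-(2 ^ k * m)) (2 ^ k * m) G ∧
    TBs (-(8 * (2 ^ k * m))) (-(4 * (2 ^ k * m))) (-(2 * (2 ^ k * m))) (2 * (2 ^ k * m)) G

/-- The crossings to the right of the circuit. -/
def ChR (m : ℤ) (G : Set Edg) : Prop := ∀ k : ℕ,
  LRs (2 ^ k * m) (8 * (2 ^ k * m)) (-(2 ^ k * m)) (2 ^ k * m) G ∧
    TBs (4 * (2 ^ k * m)) (8 * (2 ^ k * m)) (-(2 * (2 ^ k * m))) (2 * (2 ^ k * m)) G

theorem pow_succ_mul (m : ℤ) (k : ℕ) : 2 ^ (k + 1) * m = 2 * (2 ^ k * m) := by ring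

theorem two_pow_inj {m : ℤ} (hm : 1 ≤ m) {k l : ℕ} (h : (2:ℤ) ^ k * m = 2 ^ l * m) : k = l := by
  have h1 : (2:ℤ) ^ k = 2 ^ l := mul_right_cancel₀ (by omega) h
  exact Int.pow_right_injective (by decide : 1 < (2:ℤ).natAbs) h1

theorem circ_inf {G : Set Edg} {m : ℤ} (hm : 1 ≤ m) (hC : CircS m (2 * m) G)
    (hch : ChL m G ∨ ChR m G) :
    ∃ z : Vtx, {w | Reach G z w}.Infinite ∧
      ∀ G' : Set Edg, G ⊆ G' → ∀ u v : Vtx, inR (-m) m (-m) m u →
        (v.1 = -(2 * m) ∨ v.1 = 2 * m ∨ v.2 = -(2 * m) ∨ v.2 = 2 * m) →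
        Reach (G' ∩ Sq (2 * m)) u v → Reach (G' ∩ Sq (2 * m)) u z := by
  obtain ⟨l, l', r, r', hl, hr, hL, hR, hlr, hhit⟩ := circ_hit (by omega) (by omega) hC
  refine ⟨(r, -(2 * m)), ?_, hhit⟩
  rcases hch with hch | hch
  · obtain ⟨y, y', hy, hy', hH⟩ := (hch 0).1
    have e1 : Reach (G ∩ ↑(RE (-(8 * m)) (-m) (-m) m)) (-(8 * m), y) (-m, y') := by
      have := hH.mono (Set.inter_subset_inter_right G (by exact_mod_cast LRE_subset_RE))
      simpa using this
    have e2 : Reach (G ∩ ↑(RE (-(2 * m)) (-m) (-(2 * m)) (2 * m))) (l, -(2 * m)) (l', 2 * m) :=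
      hL.mono (Set.inter_subset_inter_right G (by exact_mod_cast TBE_subset_RE))
    have m1 : Reach (G ∩ ↑(RE (-(8 * m)) (-m) (-(2 * m)) (2 * m))) (-(8 * m), y)
        (l, -(2 * m)) :=
      cross_meet (by omega) (by omega) le_rfl (by omega) (by omega) (by omega) e1
        (by simp only; omega) le_rfl e2 (by simp only; omega) (by simp only; omega)
    have hinf := chain_inf (G := G) (aH := fun k => -(8 * (2 ^ k * m)))
      (bH := fun k => -(2 ^ k * m)) (aV := fun k => -(8 * (2 ^ k * m)))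
      (bV := fun k => -(4 * (2 ^ k * m))) (h := fun k => 2 ^ k * m)
      (fun k => by positivity) (fun k => pow_succ_mul m k) (fun k => le_rfl)
      (fun k => by have : 0 < 2 ^ k * m := by positivity
                   omega)
      (fun k => by have : 0 < 2 ^ k * m := by positivity
                   omega)
      (fun k => by have : 0 < 2 ^ k * m := by positivity
                   have := pow_succ_mul m k
                   omega)
      (fun k => by have : 0 < 2 ^ k * m := by positivity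
                   have := pow_succ_mul m k
                   omega)
      (fun k => (hch k).1) (fun k => (hch k).2)
      (fun k l h => two_pow_inj hm (by simp only at h; omega)) (y0 := y) (y0' := y')
      (by simpa using hH)
    apply hinf.mono
    intro w hw
    have hw' : Reach G (-(8 * m), y) w := by simpa using hw
    exact ((hlr.mono Set.inter_subset_left).trans
      (m1.symm.mono Set.inter_subset_left)).trans hw'
  · obtain ⟨y, y', hy, hy', hH⟩ := (hch 0).1
    have e1 : Reach (G ∩ ↑(RE m (8 * m) (-m) m)) (m, y) (8 * m, y') := by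
      have := hH.mono (Set.inter_subset_inter_right G (by exact_mod_cast LRE_subset_RE))
      simpa using this
    have e2 : Reach (G ∩ ↑(RE m (2 * m) (-(2 * m)) (2 * m))) (r, -(2 * m)) (r', 2 * m) :=
      hR.mono (Set.inter_subset_inter_right G (by exact_mod_cast TBE_subset_RE))
    have m1 : Reach (G ∩ ↑(RE m (8 * m) (-(2 * m)) (2 * m))) (m, y)
        (r, -(2 * m)) :=
      cross_meet le_rfl (by omega) (by omega) (by omega) (by omega) (by omega) e1
        le_rfl (by simp only; omega) e2 (by simp only; omega) (by simp only; omega)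
    have hinf := chain_inf (G := G) (aH := fun k => 2 ^ k * m)
      (bH := fun k => 8 * (2 ^ k * m)) (aV := fun k => 4 * (2 ^ k * m))
      (bV := fun k => 8 * (2 ^ k * m)) (h := fun k => 2 ^ k * m)
      (fun k => by positivity) (fun k => pow_succ_mul m k)
      (fun k => by have : 0 < 2 ^ k * m := by positivity
                   omega)
      (fun k => by have : 0 < 2 ^ k * m := by positivity
                   omega) (fun k => le_rfl)
      (fun k => by have : 0 < 2 ^ k * m := by positivity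
                   have := pow_succ_mul m k
                   omega)
      (fun k => by have : 0 < 2 ^ k * m := by positivity
                   have := pow_succ_mul m k
                   omega)
      (fun k => (hch k).1) (fun k => (hch k).2)
      (fun k l h => two_pow_inj hm h) (y0 := y) (y0' := y') (by simpa using hH)
    apply hinf.mono
    intro w hw
    have hw' : Reach G (m, y) w := by simpa using hw
    exact (m1.symm.mono Set.inter_subset_left).trans hw'

/-- The step at which the circuit is reached. -/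
theorem upper_det {U : Wt} {q : unitInterval} {m : ℤ} (hm : 1 ≤ m)
    (hC : CircS m (2 * m) (lo q U)) (hch : ChL m (lo q U) ∨ ChR m (lo q U)) {x : Vtx}
    (hx : x.1 < -(2 * m) ∨ 2 * m < x.1 ∨ x.2 < -(2 * m) ∨ 2 * m < x.2) (hxS : x ∈ region U) :
    ∃ a, inR (-(2 * m)) (2 * m) (-(2 * m)) (2 * m) a ∧ Reach (lo q U) a x := by
  classical
  obtain ⟨z, hinf, hhit⟩ := circ_inf hm hC hch
  obtain ⟨j0, hj0⟩ := Set.mem_iUnion.mp hxS
  have hin : ∀ i, (∀ w ∈ inv U i, ¬ Reach (lo q U ∩ Sq (2 * m)) z w) →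
      ∀ v ∈ inv U i, ¬ (v.1 ≤ -(2 * m) ∨ 2 * m ≤ v.1 ∨ v.2 ≤ -(2 * m) ∨ 2 * m ≤ v.2) := by
    intro i hi v hv
    exact circ_sep hhit (by omega) hi (zero_inv U i) (by unfold inR; simp only; omega)
      (inv_conn U i v hv)
  by_cases hex : ∃ i, ∃ w ∈ inv U i, Reach (lo q U ∩ Sq (2 * m)) z w
  · have hmin := fun i (hi : i < Nat.find hex) => Nat.find_min hex hi
    obtain ⟨a, ha, har⟩ := Nat.find_spec hex
    set i := Nat.find hex with hi
    have hbox : ∀ v ∈ inv U i, inR (-(2 * m)) (2 * m) (-(2 * m)) (2 * m) v := by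
      rcases Nat.eq_zero_or_pos i with h0 | h0
      · rw [h0]
        intro v hv
        have : v = (0, 0) := hv
        rw [this]
        unfold inR
        simp only
        omega
      · obtain ⟨i', hi'⟩ : ∃ i', i = i' + 1 := ⟨i - 1, by omega⟩
        have h1 := hin i' (by
          intro w hw hw'
          exact hmin i' (by omega) ⟨w, hw, hw'⟩)
        rw [hi']
        intro v hv
        rcases grow_cases hv with h2 | ⟨-, u, hu, f, -, hc, -⟩
        · have := h1 v h2
          unfold inR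
          omega
        · have h3 := h1 u hu
          obtain ⟨fx, fy, fb⟩ := f
          unfold inR
          cases fb
          · simp only [src_mk, tgt_false] at hc
            rcases hc with ⟨h4, h5⟩ | ⟨h4, h5⟩
            · rw [← h4] at h3; rw [← h5]; simp only at h3 ⊢; omega
            · rw [← h5] at h3; rw [← h4]; simp only at h3 ⊢; omega
          · simp only [src_mk, tgt_true] at hc
            rcases hc with ⟨h4, h5⟩ | ⟨h4, h5⟩
            · rw [← h4] at h3; rw [← h5]; simp only at h3 ⊢; omega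
            · rw [← h5] at h3; rw [← h4]; simp only at h3 ⊢; omega
    obtain ⟨b, hb, hbr⟩ := low_conn (low_of_infinite hinf ha (har.mono Set.inter_subset_left))
      (max i j0) (le_max_left _ _) x (inv_mono U (le_max_right _ _) hj0)
    exact ⟨b, hbox b hb, hbr⟩
  · exfalso
    push Not at hex
    have := hin j0 (fun w hw => hex j0 w hw) x hj0
    omega

/-- The invasion contains the clusters which reach the circuit from inside. -/
theorem lower_det {U : Wt} {q : unitInterval} {R1 R2 : ℤ} (h1 : 0 ≤ R1) (h2 : R1 < R2)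
    (hC : CircS R1 R2 (lo q U)) (hfin : ∀ v, {w | Reach (lo q U) v w}.Finite) {x v : Vtx}
    (hx : inR (-R1) R1 (-R1) R1 x) (hv : v.1 ≤ -R2 ∨ R2 ≤ v.1 ∨ v.2 ≤ -R2 ∨ R2 ≤ v.2)
    (hr : Reach (lo q U) x v) : x ∈ region U := by
  obtain ⟨l, l', r, r', hl, hr', hL, hR, hlr, hhit⟩ := circ_hit h1 h2 hC
  obtain ⟨w, k1, k2, k3⟩ := first_exit (a := -R2) (b := R2) (c := -R2) (d := R2)
    (by unfold inR at hx ⊢; omega) hr hv
  have m1 := hhit _ subset_rfl x w hx k2 k3
  -- the invasion meets the cluster of the circuit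
  have key : ∃ a ∈ region U, Reach (lo q U ∩ Sq R2) (r, -R2) a := by
    by_contra hcon
    push Not at hcon
    apply region_infinite U
    have hfin2 : (Set.Icc (-R2) R2 ×ˢ Set.Icc (-R2) R2).Finite :=
      (Set.finite_Icc _ _).prod (Set.finite_Icc _ _)
    apply hfin2.subset
    intro y hy
    obtain ⟨i, hi⟩ := Set.mem_iUnion.mp hy
    have := circ_sep hhit h2 (fun w hw => hcon w (inv_sub U i hw)) (zero_inv U i)
      (by unfold inR; simp only; omega) (inv_conn U i y hi)
    simp only [Set.mem_prod, Set.mem_Icc]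
    omega
  obtain ⟨a, ha, har⟩ := key
  exact cluster_sub hfin ha ((har.symm.mono Set.inter_subset_left).trans
    (m1.symm.mono Set.inter_subset_left))

end Pool.Agent.Helper911.Inv
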