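import Pool.Agent.H31R3.Kes.Circuits
import Pool.Agent.H974R2.Infinite

/-!
Invasion percolation on the square lattice: deterministic facts.
-/

set_option autoImplicit false
set_option maxHeartbeats 1000000

namespace Pool.Agent.Helper911.Inv

open H974 H31K

/-- Weights of the edges. -/
abbrev Wt := sqLattice.edgeSet → unitInterval

/-- The edges between `A` and its complement. -/
def bdryE (A : Set (ℤ × ℤ)) : Set sqLattice.edgeSet :=
  {e | ∃ u ∈ A, ∃ v ∉ A, (e : Sym2 (ℤ × ℤ)) = s(u, v)}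

/-- One step of the invasion. -/
def grow (U : Wt) (A : Set (ℤ × ℤ)) : Set (ℤ × ℤ) :=
  A ∪ {v | ∃ e ∈ bdryE A, v ∈ (e : Sym2 (ℤ × ℤ)) ∧ ∀ f ∈ bdryE A, U e ≤ U f}

/-- The set of the vertices invaded after `i` steps. -/
def inv (U : Wt) : ℕ → Set (ℤ × ℤ)
  | 0 => {(0, 0)}
  | i + 1 => grow U (inv U i)

/-- The set of all invaded vertices. -/
def region (U : Wt) : Set (ℤ × ℤ) := ⋃ i, inv U i

/-- The edge `f` joins `A` to its complement. -/
def Cr (A : Set Vtx) (f : Edg) : Prop := (src f ∈ A ∧ tgt f ∉ A) ∨ (tgt f ∈ A ∧ src f ∉ A)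

/-- The edges of weight at most `q`. -/
def lo (q : unitInterval) (U : Wt) : Set Edg := {e | U (toE e) ≤ q}

theorem toE_mem {A : Set Vtx} {f : Edg} : toE f ∈ bdryE A ↔ Cr A f := by
  constructor
  · rintro ⟨u, hu, v, hv, h⟩
    have h' : s(src f, tgt f) = s(u, v) := h
    rw [Sym2.eq_iff] at h'
    rcases h' with ⟨h1, h2⟩ | ⟨h1, h2⟩
    · left; rw [h1, h2]; exact ⟨hu, hv⟩
    · right; rw [h1, h2]; exact ⟨hu, hv⟩
  · rintro (⟨h1, h2⟩ | ⟨h1, h2⟩)
    · exact ⟨src f, h1, tgt f, h2, rfl⟩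
    · exact ⟨tgt f, h1, src f, h2, Sym2.eq_swap⟩

theorem toE_surj (e : sqLattice.edgeSet) : ∃ f : Edg, toE f = e := by
  obtain ⟨e, he⟩ := e
  induction e using Sym2.ind with
  | _ u v =>
    obtain ⟨f, hf⟩ := adj_edge ((SimpleGraph.mem_edgeSet _).mp he)
    refine ⟨f, Subtype.ext ?_⟩
    show s(src f, tgt f) = s(u, v)
    rcases hf with ⟨h1, h2⟩ | ⟨h1, h2⟩
    · rw [h1, h2]
    · rw [h1, h2]; exact Sym2.eq_swap

theorem grow_cases {U : Wt} {A : Set Vtx} {v : Vtx} (h : v ∈ grow U A) :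
    v ∈ A ∨ (v ∉ A ∧ ∃ u ∈ A, ∃ f : Edg, Cr A f ∧
      ((src f = u ∧ tgt f = v) ∨ (src f = v ∧ tgt f = u)) ∧
      ∀ g, Cr A g → U (toE f) ≤ U (toE g)) := by
  by_cases hv : v ∈ A
  · exact Or.inl hv
  right
  rcases h with h | ⟨e, he, hve, hmin⟩
  · exact absurd h hv
  obtain ⟨f, rfl⟩ := toE_surj e
  have hc := toE_mem.mp he
  have hmin' : ∀ g, Cr A g → U (toE f) ≤ U (toE g) := fun g hg => hmin _ (toE_mem.mpr hg)
  have hve' : v ∈ s(src f, tgt f) := hve
  rw [Sym2.mem_iff] at hve'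
  refine ⟨hv, ?_⟩
  rcases hve' with h1 | h1
  · rcases hc with ⟨h2, h3⟩ | ⟨h2, h3⟩
    · exact absurd (h1 ▸ h2) hv
    · exact ⟨tgt f, h2, f, Or.inr ⟨h2, h3⟩, Or.inr ⟨h1.symm, rfl⟩, hmin'⟩
  · rcases hc with ⟨h2, h3⟩ | ⟨h2, h3⟩
    · exact ⟨src f, h2, f, Or.inl ⟨h2, h3⟩, Or.inl ⟨rfl, h1.symm⟩, hmin'⟩
    · exact absurd (h1 ▸ h2) hv

theorem cr_finite {A : Set Vtx} (hA : A.Finite) : {f | Cr A f}.Finite := by
  have h1 : ((fun t : Vtx × Bool => ((t.1.1, t.1.2, t.2) : Edg)) '' (A ×ˢ Set.univ)).Finite :=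
    (hA.prod Set.finite_univ).image _
  have h2 : ((fun t : Vtx × Bool => if t.2 then ((t.1.1 - 1, t.1.2, true) : Edg)
      else ((t.1.1, t.1.2 - 1, false) : Edg)) '' (A ×ˢ Set.univ)).Finite :=
    (hA.prod Set.finite_univ).image _
  apply (h1.union h2).subset
  rintro ⟨x, y, b⟩ hf
  rcases hf with ⟨h3, -⟩ | ⟨h3, -⟩
  · left
    exact ⟨((x, y), b), ⟨h3, Set.mem_univ _⟩, rfl⟩
  · right
    cases b
    · rw [tgt_false] at h3
      exact ⟨((x, y + 1), false), ⟨h3, Set.mem_univ _⟩, by simp⟩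
    · rw [tgt_true] at h3
      exact ⟨((x + 1, y), true), ⟨h3, Set.mem_univ _⟩, by simp⟩

theorem cr_nonempty {A : Set Vtx} (hA : A.Finite) (hne : A.Nonempty) : {f | Cr A f}.Nonempty := by
  obtain ⟨a, ha, hmax⟩ := Set.exists_max_image A (fun v => v.1) hA hne
  refine ⟨(a.1, a.2, true), Or.inl ⟨ha, ?_⟩⟩
  intro h
  have := hmax _ h
  rw [tgt_true] at this
  simp only at this
  omega

theorem exists_min {U : Wt} {A : Set Vtx} (hA : A.Finite) (hne : A.Nonempty) :
    ∃ f, Cr A f ∧ ∀ g, Cr A g → U (toE f) ≤ U (toE g) := by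
  obtain ⟨f, hf, hmin⟩ := Set.exists_min_image {f | Cr A f} (fun f => U (toE f)) (cr_finite hA)
    (cr_nonempty hA hne)
  exact ⟨f, hf, fun g hg => hmin g hg⟩

theorem mem_grow {U : Wt} {A : Set Vtx} {f : Edg} (hf : Cr A f)
    (hmin : ∀ g, Cr A g → U (toE f) ≤ U (toE g)) : src f ∈ grow U A ∧ tgt f ∈ grow U A := by
  have h : ∀ g ∈ bdryE A, U (toE f) ≤ U g := by
    intro g hg
    obtain ⟨g', rfl⟩ := toE_surj g
    exact hmin g' (toE_mem.mp hg)
  constructor
  · right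
    exact ⟨toE f, toE_mem.mpr hf, Sym2.mem_mk_left _ _, h⟩
  · right
    exact ⟨toE f, toE_mem.mpr hf, Sym2.mem_mk_right _ _, h⟩

theorem grow_new {U : Wt} {A : Set Vtx} (hA : A.Finite) (hne : A.Nonempty) :
    ∃ v ∈ grow U A, v ∉ A := by
  obtain ⟨f, hf, hmin⟩ := exists_min (U := U) hA hne
  obtain ⟨h1, h2⟩ := mem_grow hf hmin
  rcases hf with ⟨h3, h4⟩ | ⟨h3, h4⟩
  · exact ⟨_, h2, h4⟩
  · exact ⟨_, h1, h4⟩

theorem grow_finite {U : Wt} {A : Set Vtx} (hA : A.Finite) : (grow U A).Finite := by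
  apply (hA.union (((cr_finite hA).image src).union ((cr_finite hA).image tgt))).subset
  intro v hv
  rcases grow_cases hv with h | ⟨-, u, -, f, hf, hc, -⟩
  · exact Or.inl h
  · right
    rcases hc with ⟨-, h2⟩ | ⟨h1, -⟩
    · right; exact ⟨f, hf, h2⟩
    · left; exact ⟨f, hf, h1⟩

theorem inv_succ (U : Wt) (i : ℕ) : inv U (i + 1) = grow U (inv U i) := rfl

theorem inv_finite (U : Wt) (i : ℕ) : (inv U i).Finite := by
  induction i with
  | zero => exact Set.finite_singleton _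
  | succ i ih => exact grow_finite ih

theorem inv_step (U : Wt) (i : ℕ) : inv U i ⊆ inv U (i + 1) := Set.subset_union_left

theorem inv_mono (U : Wt) {i j : ℕ} (h : i ≤ j) : inv U i ⊆ inv U j := by
  induction j, h using Nat.le_induction with
  | base => exact subset_rfl
  | succ j _ ih => exact ih.trans (inv_step U j)

theorem zero_inv (U : Wt) (i : ℕ) : ((0, 0) : Vtx) ∈ inv U i :=
  inv_mono U (Nat.zero_le i) (Set.mem_singleton _)

theorem inv_card (U : Wt) (i : ℕ) : i < (inv U i).ncard := by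
  induction i with
  | zero => simp [inv]
  | succ i ih =>
    obtain ⟨v, hv, hv'⟩ := grow_new (U := U) (inv_finite U i) ⟨_, zero_inv U i⟩
    have : (inv U i).ncard < (inv U (i + 1)).ncard :=
      Set.ncard_lt_ncard ⟨inv_step U i, fun h => hv' (h hv)⟩ (inv_finite U (i + 1))
    omega

theorem inv_sub (U : Wt) (i : ℕ) : inv U i ⊆ region U := Set.subset_iUnion _ i

theorem region_infinite (U : Wt) : (region U).Infinite := by
  intro h
  have h1 := Set.ncard_le_ncard (inv_sub U (region U).ncard) h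
  have h2 := inv_card U (region U).ncard
  omega

/-- The edges with both ends in `A`. -/
def Ed (A : Set Vtx) : Set Edg := {f | src f ∈ A ∧ tgt f ∈ A}

theorem Ed_mono {A B : Set Vtx} (h : A ⊆ B) : Ed A ⊆ Ed B := fun _ hf => ⟨h hf.1, h hf.2⟩

theorem inv_conn (U : Wt) (i : ℕ) : ∀ v ∈ inv U i, Reach (Ed (inv U i)) (0, 0) v := by
  induction i with
  | zero =>
    intro v hv
    have : v = (0, 0) := hv
    rw [this]
    exact Reach.refl _ _
  | succ i ih =>
    intro v hv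
    have hm := Ed_mono (inv_step U i)
    rcases grow_cases hv with h | ⟨-, u, hu, f, -, hc, -⟩
    · exact (ih v h).mono hm
    · refine ((ih u hu).mono hm).trans (Adj.reach ⟨f, ?_, hc⟩)
      have hu' := inv_step U i hu
      rcases hc with ⟨h1, h2⟩ | ⟨h1, h2⟩
      · show src f ∈ _ ∧ tgt f ∈ _
        rw [h1, h2]; exact ⟨hu', hv⟩
      · show src f ∈ _ ∧ tgt f ∈ _
        rw [h1, h2]; exact ⟨hv, hu'⟩

theorem cross_of_reach {G : Set Edg} {A : Set Vtx} {a w : Vtx} (h : Reach G a w) (ha : a ∈ A)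
    (hw : w ∉ A) : ∃ f ∈ G, Cr A f := by
  induction h with
  | refl => exact absurd ha hw
  | @tail v v' _ hs ih =>
    by_cases hv : v ∈ A
    · obtain ⟨f, hf, hc⟩ := hs
      refine ⟨f, hf, ?_⟩
      rcases hc with ⟨h1, h2⟩ | ⟨h1, h2⟩
      · left; rw [h1, h2]; exact ⟨hv, hw⟩
      · right; rw [h1, h2]; exact ⟨hv, hw⟩
    · exact ih hv

/-- If every step after the time `i` may use an edge of weight at most `q`, then all vertices are
joined to the set at the time `i` by edges of weight at most `q`. -/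
theorem low_conn {U : Wt} {q : unitInterval} {i : ℕ}
    (h : ∀ j, i ≤ j → ∃ f ∈ lo q U, Cr (inv U j) f) (j : ℕ) (hj : i ≤ j) :
    ∀ v ∈ inv U j, ∃ a ∈ inv U i, Reach (lo q U) a v := by
  induction j, hj using Nat.le_induction with
  | base => exact fun v hv => ⟨v, hv, Reach.refl _ _⟩
  | succ j hj ih =>
    intro v hv
    rcases grow_cases hv with h1 | ⟨-, u, hu, f, -, hc, hmin⟩
    · exact ih v h1
    · obtain ⟨a, ha, har⟩ := ih u hu
      obtain ⟨g, hg, hgc⟩ := h j hj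
      exact ⟨a, ha, har.trans (Adj.reach ⟨f, (hmin g hgc).trans hg, hc⟩)⟩

/-- If an infinite cluster of weight at most `q` is met at the time `i`, only edges of weight at most
`q` are used afterwards. -/
theorem low_of_infinite {U : Wt} {q : unitInterval} {z : Vtx}
    (hinf : {w | Reach (lo q U) z w}.Infinite) {i : ℕ} {a : Vtx} (ha : a ∈ inv U i)
    (hza : Reach (lo q U) z a) (j : ℕ) (hj : i ≤ j) : ∃ f ∈ lo q U, Cr (inv U j) f := by
  obtain ⟨w, hw, hw'⟩ := hinf.exists_notMem_finite (inv_finite U j)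
  exact cross_of_reach (hza.symm.trans hw) (inv_mono U hj ha) hw'

/-- If all the clusters of weight at most `q` are finite, then the invasion which meets such a
cluster invades it completely. -/
theorem cluster_sub {U : Wt} {q : unitInterval}
    (hfin : ∀ v, {w | Reach (lo q U) v w}.Finite) {a w : Vtx} (ha : a ∈ region U)
    (haw : Reach (lo q U) a w) : w ∈ region U := by
  by_contra hw
  obtain ⟨i, hi⟩ := Set.mem_iUnion.mp ha
  have h1 : ∀ j, i ≤ j → ∃ f ∈ lo q U, Cr (inv U j) f := fun j hj =>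
    cross_of_reach haw (inv_mono U hj hi) (fun h => hw (inv_sub U j h))
  have h2 := low_conn h1
  apply region_infinite U
  apply ((inv_finite U i).biUnion (fun v _ => hfin v)).subset
  intro v hv
  obtain ⟨j, hj⟩ := Set.mem_iUnion.mp hv
  obtain ⟨b, hb, hbr⟩ := h2 (max i j) (le_max_left _ _) v (inv_mono U (le_max_right _ _) hj)
  exact Set.mem_biUnion hb hbr

end Pool.Agent.Helper911.Inv
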