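import Pool.Agent.Helper911_Inv.Geo

/-!
The law of the weights, thresholds and independence.
-/

set_option autoImplicit false
set_option maxHeartbeats 1000000

namespace Pool.Agent.Helper911.Inv

open H974 H31K MeasureTheory ProbabilityTheory

/-- Independent uniform weights. -/
noncomputable def wlaw : Measure Wt := Measure.infinitePi (fun _ => volume)

instance : IsProbabilityMeasure wlaw := by unfold wlaw; infer_instance

/-- The edges of weight at most `q` are open. -/
noncomputable def thr (q : unitInterval) (U : Wt) : sqLattice.edgeSet → Bool := fun e => decide (U e ≤ q)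

theorem opn_thr (q : unitInterval) (U : Wt) : opn (thr q U) = lo q U := by
  ext e
  simp [opn, thr, lo]

theorem dec_meas (q : unitInterval) : Measurable (fun x : unitInterval => decide (x ≤ q)) :=
  measurable_to_bool (by
    have : (fun x : unitInterval => decide (x ≤ q)) ⁻¹' {true} = Set.Iic q := by
      ext x; simp
    rw [this]
    exact measurableSet_Iic)

theorem map_dec (q : unitInterval) :
    (volume : Measure unitInterval).map (fun x => decide (x ≤ q)) =
      bernoulliMeasure true false q := by
  have hm := dec_meas q
  have hp : IsProbabilityMeasure ((volume : Measure unitInterval).map (fun x => decide (x ≤ q))) :=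
    Measure.isProbabilityMeasure_map hm.aemeasurable
  have key : ∀ b : Bool, ((volume : Measure unitInterval).map (fun x => decide (x ≤ q))) {b} =
      (bernoulliMeasure true false q) {b} := by
    intro b
    rw [Measure.map_apply hm (measurableSet_singleton _)]
    cases b
    · have e : (fun x : unitInterval => decide (x ≤ q)) ⁻¹' {false} = Set.Ioi q := by
        ext x; simp
      rw [e, bernoulliMeasure_apply_of_notMem_of_mem q (measurableSet_singleton _) (by simp)
        (by simp), unitInterval.volume_Ioi]
      rw [ENNReal.ofReal, ENNReal.coe_inj]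
      apply NNReal.eq
      rw [Real.coe_toNNReal _ (sub_nonneg.mpr q.2.2)]
      rfl
    · have e : (fun x : unitInterval => decide (x ≤ q)) ⁻¹' {true} = Set.Iic q := by
        ext x; simp
      rw [e, bernoulliMeasure_apply_of_mem_of_notMem q (measurableSet_singleton _) (by simp)
        (by simp), unitInterval.volume_Iic]
      rw [ENNReal.ofReal, ENNReal.coe_inj]
      apply NNReal.eq
      rw [Real.coe_toNNReal _ q.2.1]
      rfl
  exact Measure.ext_of_singleton key

theorem thr_meas (q : unitInterval) : Measurable (thr q) := by
  rw [measurable_pi_iff]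
  intro e
  exact (dec_meas q).comp (measurable_pi_apply e)

theorem law_thr (q : unitInterval) : wlaw.map (thr q) = bondLaw q := by
  unfold wlaw bondLaw
  have h := Measure.infinitePi_map_pi (μ := fun _ : sqLattice.edgeSet =>
    (volume : Measure unitInterval)) (f := fun _ x => decide (x ≤ q)) (fun _ => dec_meas q)
  rw [map_dec q] at h
  exact h

theorem wlaw_event (q : unitInterval) (S : Finset Edg) (Q : Finset Edg → Prop) :
    wlaw.real {U | Q (FF S (thr q U))} = Pr (fun _ => (q:ℝ)) S Q := by
  rw [← law_event, ← law_thr, map_measureReal_apply (thr_meas q) (meas_event S Q)]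
  rfl

theorem wmeas_event (q : unitInterval) (S : Finset Edg) (Q : Finset Edg → Prop) :
    MeasurableSet {U | Q (FF S (thr q U))} :=
  thr_meas q (meas_event S Q)

theorem iInd : iIndepFun (fun (e : Edg) (U : Wt) => U (toE e)) wlaw := by
  have h : iIndepFun (fun (e : sqLattice.edgeSet) (U : Wt) => U e) wlaw :=
    iIndepFun_infinitePi (X := fun _ ω => ω) (by fun_prop)
  exact h.precomp toE_inj

/-- The open edges of `S` as a function of the weights of `S`. -/
noncomputable def FFr (S : Finset Edg) (q : unitInterval) (w : S → unitInterval) : Finset Edg :=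
  (S.attach.filter (fun e => w e ≤ q)).map (Function.Embedding.subtype _)

theorem FFr_eq (S : Finset Edg) (q : unitInterval) (U : Wt) :
    FFr S q (fun e : S => U (toE e)) = FF S (thr q U) := by
  ext e
  unfold FFr
  rw [mem_FF]
  simp [thr, and_comm]

theorem FFr_meas (S : Finset Edg) (q : unitInterval) (Q : Finset Edg → Prop) :
    MeasurableSet {w : S → unitInterval | Q (FFr S q w)} := by
  have h1 : Measurable (fun (w : S → unitInterval) (e : S) => decide (w e ≤ q)) := by
    rw [measurable_pi_iff]
    intro e
    exact (dec_meas q).comp (measurable_pi_apply e)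
  have h2 : {w : S → unitInterval | Q (FFr S q w)} =
      (fun (w : S → unitInterval) (e : S) => decide (w e ≤ q)) ⁻¹'
        {b : S → Bool | Q ((S.attach.filter (fun e => b e = true)).map
          (Function.Embedding.subtype _))} := by
    ext w
    simp [FFr]
  rw [h2]
  exact h1 (Set.toFinite _).measurableSet

/-- Events depending on disjoint sets of edges, at possibly different thresholds, are
independent. -/
theorem indep2 {S T : Finset Edg} (hST : Disjoint S T) (q r : unitInterval)
    (P Q : Finset Edg → Prop) :
    wlaw.real ({U | P (FF S (thr q U))} ∩ {U | Q (FF T (thr r U))}) =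
      wlaw.real {U | P (FF S (thr q U))} * wlaw.real {U | Q (FF T (thr r U))} := by
  have h := iInd.indepFun_finset S T hST (fun e => measurable_pi_apply _)
  have h2 := h.measure_inter_preimage_eq_mul _ _ (FFr_meas S q P) (FFr_meas T r Q)
  have e1 : (fun (U : Wt) (e : S) => U (toE e)) ⁻¹' {w | P (FFr S q w)} =
      {U | P (FF S (thr q U))} := by
    ext U
    show P (FFr S q (fun e : S => U (toE e))) ↔ _
    rw [FFr_eq]; rfl
  have e2 : (fun (U : Wt) (e : T) => U (toE e)) ⁻¹' {w | Q (FFr T r w)} =
      {U | Q (FF T (thr r U))} := by
    ext U
    show Q (FFr T r (fun e : T => U (toE e))) ↔ _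
    rw [FFr_eq]; rfl
  rw [e1, e2] at h2
  unfold Measure.real
  rw [h2, ENNReal.toReal_mul]

end Pool.Agent.Helper911.Inv
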