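import Pool.Agent.Helper911_Inv.Targets

/-!
The first pond and the largest weight of the invasion.
-/

set_option autoImplicit false
set_option maxHeartbeats 1000000

namespace Pool.Agent.Helper911.Inv

open H974 H31K MeasureTheory ProbabilityTheory Filter Topology

/-- The weight of the edge used at the step `i`. -/
noncomputable def cost (U : Wt) (i : ℕ) : ℝ := sInf ((fun e => (U e : ℝ)) '' bdryE (inv U i))

/-- The first pond. -/
def pond (U : Wt) : Set (ℤ × ℤ) :=
  {v | ∃ i k, i ≤ k ∧ (∀ j, j < i → cost U j < cost U k) ∧ v ∈ inv U i}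

theorem cost_spec (U : Wt) (i : ℕ) : ∃ f, Cr (inv U i) f ∧ cost U i = U (toE f) ∧
    ∀ g, Cr (inv U i) g → cost U i ≤ U (toE g) := by
  obtain ⟨f, hf, hmin⟩ := exists_min (U := U) (inv_finite U i) ⟨_, zero_inv U i⟩
  have hl : IsLeast ((fun e => (U e : ℝ)) '' bdryE (inv U i)) (U (toE f)) := by
    refine ⟨⟨toE f, toE_mem.mpr hf, rfl⟩, ?_⟩
    rintro _ ⟨e, he, rfl⟩
    obtain ⟨g, rfl⟩ := toE_surj e
    exact hmin g (toE_mem.mp he)
  have hc : cost U i = U (toE f) := hl.csInf_eq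
  refine ⟨f, hf, hc, ?_⟩
  intro g hg
  rw [hc]
  exact hmin g hg

theorem cost_le_iff (U : Wt) (i : ℕ) (q : unitInterval) :
    cost U i ≤ q ↔ ∃ f ∈ lo q U, Cr (inv U i) f := by
  obtain ⟨f, hf, hc, hmin⟩ := cost_spec U i
  constructor
  · intro h
    refine ⟨f, ?_, hf⟩
    rw [hc] at h
    exact h
  · rintro ⟨g, hg, hgc⟩
    exact (hmin g hgc).trans hg

theorem sep_zero {m : ℕ} (hm : 1 ≤ m) : Sep (0, 0) m (m - 1) := by
  have hm' : (1:ℤ) ≤ m := by exact_mod_cast hm
  have hr : ((m - 1 : ℕ) : ℤ) = m - 1 := by omega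
  have key : ∀ a b c d : ℤ, (m ≤ a ∨ b ≤ -(m:ℤ) ∨ m ≤ c ∨ d ≤ -(m:ℤ)) →
      Disjoint (RE a b c d) (bx (0, 0) (m - 1)) := by
    intro a b c d h1
    rw [Finset.disjoint_left]
    intro e he1 he2
    have k1 := (ends_inR he1).1
    unfold bx at he2
    have k2 := (ends_inR he2).1
    unfold inR at k1 k2
    rw [hr] at k2
    simp only at k2
    omega
  exact ⟨hm', by omega, key _ _ _ _ (by omega), key _ _ _ _ (by omega),
    key _ _ _ _ (by omega), key _ _ _ _ (by omega)⟩

/-- The first pond reaches distance `n`. -/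
def PR (n : ℕ) : Set Wt := {U | ∃ v ∈ pond U, (n:ℤ) ≤ max |v.1| |v.2|}

theorem pond_upper : ∃ K : ℝ, 0 < K ∧ ∀ n : ℕ, 1 ≤ n →
    wlaw.real (PR n) ≤ K * (n:ℝ)^(-(5/48) : ℝ) := by
  obtain ⟨K, hK, hup⟩ := upper_gen
  refine ⟨8 * K + 8, by positivity, ?_⟩
  intro n hn
  have hn0 : (0:ℝ) < n := by exact_mod_cast hn
  have hP : 0 < (n:ℝ)^(-(5/48) : ℝ) := by positivity
  rcases lt_or_ge n 8 with h8 | h8
  · have h1 : wlaw.real (PR n) ≤ 1 := measureReal_le_one
    have h2 := pw_le (n := 1) (r := n) (M := 8) one_pos hn0 (by norm_num)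
      (by have : (n:ℝ) ≤ 8 := by exact_mod_cast h8.le
          linarith)
    rw [Real.one_rpow] at h2
    nlinarith
  · obtain ⟨m, hm⟩ : ∃ m, m = n / 4 := ⟨_, rfl⟩
    have hm2 : 2 ≤ m := by omega
    have h1 := hup (0, 0) m (m - 1) (sep_zero (by omega)) (by omega) (by omega) (PR n) (by
      intro q U hU hb
      obtain ⟨hC, hch⟩ := not_bad hb
      obtain ⟨v, ⟨i, k, hik, hlt, hvi⟩, hvn⟩ := hU
      have hv2 : v.1 < -(2 * (m:ℤ)) ∨ 2 * (m:ℤ) < v.1 ∨ v.2 < -(2 * (m:ℤ)) ∨
          2 * (m:ℤ) < v.2 := by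
        rcases max_choice |v.1| |v.2| with h6 | h6
        · rw [h6] at hvn
          rcases abs_cases v.1 with h7 | h7 <;> omega
        · rw [h6] at hvn
          rcases abs_cases v.2 with h7 | h7 <;> omega
      obtain ⟨i0, hi0, hlow⟩ := time_det (by omega) hC hch i hvi hv2
      have hk : cost U k ≤ q := (cost_le_iff U k q).mpr (hlow k (by omega))
      have hreach := low_conn_lt (U := U) (q := q) (t := i)
        (fun j hj => (cost_le_iff U j q).mp ((hlt j hj).le.trans hk)) v hvi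
      refine mem_AX (u := v) ?_ hreach
      simp only
      omega)
    have hm0 : (0:ℝ) < m := by
      have : 0 < m := by omega
      exact_mod_cast this
    have h2 := pw_le (n := m) (r := n) (M := 8) hm0 hn0 (by norm_num)
      (by have : n ≤ m * 8 := by omega
          exact_mod_cast this)
    nlinarith

theorem pond_lower : ∃ c : ℝ, 0 < c ∧ ∀ n : ℕ, 1 ≤ n →
    c * (n:ℝ)^(-(5/48) : ℝ) ≤ wlaw.real (PR n) := by
  obtain ⟨c1, C, hc1, hC, hcrit⟩ := Pool.Agent.W424.NC.arm_crit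
  refine ⟨c1, hc1, ?_⟩
  intro n hn
  have e1 := armX_ge (q := 1/2) (by norm_num) (by norm_num) (0, 0) n
    (Finset.Subset.refl (bx (0, 0) n))
  have h4 : ((hlf : unitInterval) : ℝ) = 1/2 := rfl
  have i2 := wlaw_event hlf (bx (0, 0) n) (XQ (0, 0) n)
  rw [h4] at i2
  refine ((hcrit n hn).1.trans (e1.trans i2.ge)).trans ?_
  apply lower_gen
  rintro U ⟨u, hu, hr⟩ hfin
  have hr' : Reach (lo hlf U) (0, 0) u := by
    refine hr.mono ?_
    rw [FF_lo]; exact Set.inter_subset_left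
  have hun : (n:ℤ) ≤ max |u.1| |u.2| := by
    simp only at hu
    rcases abs_cases u.1 with h7 | h7 <;> rcases abs_cases u.2 with h8 | h8 <;> omega
  have hureg : u ∈ region U := cluster_sub hfin (inv_sub U 0 (Set.mem_singleton _)) hr'
  obtain ⟨i1, hi1⟩ := Set.mem_iUnion.mp hureg
  classical
  have hex : ∃ i, ∃ v ∈ inv U i, (n:ℤ) ≤ max |v.1| |v.2| := ⟨i1, u, hi1, hun⟩
  obtain ⟨v, hv, hvn⟩ := Nat.find_spec hex
  have hmin := fun j (hj : j < Nat.find hex) => Nat.find_min hex hj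
  have hlow : ∀ j, j < Nat.find hex → cost U j ≤ ((hlf : unitInterval) : ℝ) := by
    intro j hj
    apply (cost_le_iff U j hlf).mpr
    exact cross_of_reach hr' (zero_inv U j) (fun h => hmin j hj ⟨u, h, hun⟩)
  have hk : ∃ k, ((hlf : unitInterval) : ℝ) < cost U k := by
    by_contra hcon
    push Not at hcon
    apply region_infinite U
    apply (hfin (0, 0)).subset
    intro y hy
    obtain ⟨j, hj⟩ := Set.mem_iUnion.mp hy
    exact low_conn_lt (fun l _ => (cost_le_iff U l hlf).mp (hcon l)) y hj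
  obtain ⟨k, hk⟩ := hk
  have hik : Nat.find hex ≤ k := by
    by_contra hcon
    have := hlow k (by omega)
    linarith
  exact ⟨v, ⟨Nat.find hex, k, hik, fun j hj => (hlow j hj).trans_lt hk, hv⟩, hvn⟩

/-- All the edges used by the invasion have weight at most `q`. -/
def MW (q : unitInterval) : Set Wt := {U | ∀ i, cost U i ≤ q}

theorem MW_eq (q : unitInterval) : MW q = thr q ⁻¹' {ω | (cluster0 ω).Infinite} := by
  ext U
  have hcl : cluster0 (thr q U) = {w | Reach (lo q U) (0, 0) w} := by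
    ext w
    show (openGraph (thr q U)).Reachable (0, 0) w ↔ _
    rw [open_reach, opn_thr]
    rfl
  show (∀ i, cost U i ≤ q) ↔ (cluster0 (thr q U)).Infinite
  rw [hcl]
  constructor
  · intro h
    apply (region_infinite U).mono
    intro y hy
    obtain ⟨j, hj⟩ := Set.mem_iUnion.mp hy
    exact low_conn_lt (fun l _ => (cost_le_iff U l q).mp (h l)) y hj
  · intro h i
    exact (cost_le_iff U i q).mpr (low_of_infinite h (zero_inv U 0) (Reach.refl _ _) i
      (Nat.zero_le i))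

theorem MW_law (q : unitInterval) : wlaw.real (MW q) = theta q := by
  rw [MW_eq]
  have hm : MeasurableSet {ω : sqLattice.edgeSet → Bool | (cluster0 ω).Infinite} := by
    rw [infinite_eq]
    exact MeasurableSet.iInter (fun n => meas_event (boxE n) (Arm n))
  unfold theta
  rw [← law_thr, map_measureReal_apply (thr_meas q) hm]

end Pool.Agent.Helper911.Inv
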