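import Pool.Agent.Helper911_Inv.Upper

/-!
One-point function, first pond and largest weight of the invasion.
-/

set_option autoImplicit false
set_option maxHeartbeats 1000000

namespace Pool.Agent.Helper911.Inv

open H974 H31K MeasureTheory ProbabilityTheory Filter Topology

/-- Time at which the circuit is reached. -/
theorem time_det {U : Wt} {q : unitInterval} {m : ℤ} (hm : 1 ≤ m)
    (hC : CircS m (2 * m) (lo q U)) (hch : ChL m (lo q U) ∨ ChR m (lo q U)) (i : ℕ) {v : Vtx}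
    (hv : v ∈ inv U i) (hv2 : v.1 < -(2 * m) ∨ 2 * m < v.1 ∨ v.2 < -(2 * m) ∨ 2 * m < v.2) :
    ∃ i0, i0 ≤ i ∧ ∀ j, i0 ≤ j → ∃ f ∈ lo q U, Cr (inv U j) f := by
  obtain ⟨z, hinf, hhit⟩ := circ_inf hm hC hch
  have hin : ∀ i, (∀ w ∈ inv U i, ¬ Reach (lo q U ∩ Sq (2 * m)) z w) →
      ∀ v ∈ inv U i, ¬ (v.1 ≤ -(2 * m) ∨ 2 * m ≤ v.1 ∨ v.2 ≤ -(2 * m) ∨ 2 * m ≤ v.2) := by
    intro i hi v hv
    exact circ_sep hhit (by omega) hi (zero_inv U i) (by unfold inR; simp only; omega)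
      (inv_conn U i v hv)
  by_cases hex : ∃ w ∈ inv U i, Reach (lo q U ∩ Sq (2 * m)) z w
  · obtain ⟨w, hw, hwr⟩ := hex
    exact ⟨i, le_rfl, fun j hj => low_of_infinite hinf hw (hwr.mono Set.inter_subset_left) j hj⟩
  · exfalso
    push Not at hex
    have := hin i hex v hv
    omega

theorem low_conn_lt {U : Wt} {q : unitInterval} {t : ℕ}
    (h : ∀ j, j < t → ∃ f ∈ lo q U, Cr (inv U j) f) :
    ∀ v ∈ inv U t, Reach (lo q U) (0, 0) v := by
  have key : ∀ j, j ≤ t → ∀ v ∈ inv U j, Reach (lo q U) (0, 0) v := by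
    intro j
    induction j with
    | zero =>
      intro _ v hv
      have : v = (0, 0) := hv
      rw [this]
      exact Reach.refl _ _
    | succ j ih =>
      intro hj v hv
      rcases grow_cases hv with h1 | ⟨-, u, hu, f, -, hc, hmin⟩
      · exact ih (by omega) v h1
      · obtain ⟨g, hg, hgc⟩ := h j (by omega)
        exact (ih (by omega) u hu).trans (Adj.reach ⟨f, (hmin g hgc).trans hg, hc⟩)
  exact key t le_rfl

/-! ### The one-point function -/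

theorem sep_x {x : Vtx} {m : ℕ} (hm : 1 ≤ m)
    (hx : x.1 ≤ -(4 * (m:ℤ)) ∨ 4 * (m:ℤ) ≤ x.1 ∨ x.2 ≤ -(4 * (m:ℤ)) ∨ 4 * (m:ℤ) ≤ x.2) :
    Sep x m m := by
  have hm' : (1:ℤ) ≤ m := by exact_mod_cast hm
  have key : ∀ a b c d : ℤ, -(2 * (m:ℤ)) ≤ a → b ≤ 2 * m → -(2 * (m:ℤ)) ≤ c → d ≤ 2 * m →
      Disjoint (RE a b c d) (bx x m) := by
    intro a b c d h1 h2 h3 h4
    rw [Finset.disjoint_left]
    intro e he1 he2
    have k1 := (ends_inR he1).1
    unfold bx at he2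
    have k2 := (ends_inR he2).1
    unfold inR at k1 k2
    omega
  exact ⟨hm', le_rfl, key _ _ _ _ (by omega) (by omega) (by omega) (by omega),
    key _ _ _ _ (by omega) (by omega) (by omega) (by omega),
    key _ _ _ _ (by omega) (by omega) (by omega) (by omega),
    key _ _ _ _ (by omega) (by omega) (by omega) (by omega)⟩

theorem not_bad {x : Vtx} {m : ℤ} {q : unitInterval} {U : Wt} (h : U ∉ Bad x m q) :
    CircS m (2 * m) (lo q U) ∧ (ChL m (lo q U) ∨ ChR m (lo q U)) := by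
  have h' : ¬ ¬ (CircS m (2 * m) (lo q U) ∧
      if 0 ≤ x.1 then ChL m (lo q U) else ChR m (lo q U)) := h
  rw [not_not] at h'
  refine ⟨h'.1, ?_⟩
  by_cases hx : 0 ≤ x.1
  · left; have := h'.2; rwa [if_pos hx] at this
  · right; have := h'.2; rwa [if_neg hx] at this

theorem one_upper : ∃ K : ℝ, 0 < K ∧ ∀ (x : Vtx) (N : ℕ), 1 ≤ N → (N:ℤ) = max |x.1| |x.2| →
    wlaw.real {U | x ∈ region U} ≤ K * (N:ℝ)^(-(5/48) : ℝ) := by
  obtain ⟨K, hK, hup⟩ := upper_gen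
  refine ⟨8 * K + 4, by positivity, ?_⟩
  intro x N hN hNx
  have hN0 : (0:ℝ) < N := by exact_mod_cast hN
  have hP : 0 < (N:ℝ)^(-(5/48) : ℝ) := by positivity
  rcases lt_or_ge N 4 with h4 | h4
  · have h1 : wlaw.real {U | x ∈ region U} ≤ 1 := measureReal_le_one
    have h2 := pw_le (n := 1) (r := N) (M := 4) one_pos hN0 (by norm_num)
      (by have : (N:ℝ) ≤ 4 := by exact_mod_cast h4.le
          linarith)
    rw [Real.one_rpow] at h2
    nlinarith
  · obtain ⟨m, hm⟩ : ∃ m, m = N / 4 := ⟨_, rfl⟩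
    have hm1 : 1 ≤ m := by omega
    have hx : x.1 ≤ -(4 * (m:ℤ)) ∨ 4 * (m:ℤ) ≤ x.1 ∨ x.2 ≤ -(4 * (m:ℤ)) ∨ 4 * (m:ℤ) ≤ x.2 := by
      have h5 : 4 * (m:ℤ) ≤ N := by omega
      rcases max_choice |x.1| |x.2| with h6 | h6
      · rw [h6] at hNx
        rcases abs_cases x.1 with h7 | h7 <;> omega
      · rw [h6] at hNx
        rcases abs_cases x.2 with h7 | h7 <;> omega
    have h1 := hup x m m (sep_x hm1 hx) hm1 (by omega) {U | x ∈ region U} (by
      intro q U hU hb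
      obtain ⟨hC, hch⟩ := not_bad hb
      obtain ⟨a, ha, har⟩ := upper_det (by exact_mod_cast hm1) hC hch (by omega) hU
      unfold inR at ha
      exact mem_AX (u := a) (by omega) har.symm)
    have hm0 : (0:ℝ) < m := by exact_mod_cast hm1
    have h2 := pw_le (n := m) (r := N) (M := 8) hm0 hN0 (by norm_num)
      (by have : N ≤ m * 8 := by omega
          exact_mod_cast this)
    nlinarith

/-! ### All the critical clusters are finite -/

theorem ae_fin : wlaw {U | ∃ v, {w | Reach (lo hlf U) v w}.Infinite} = 0 := by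
  have h1 : {U : Wt | ∃ v, {w | Reach (lo hlf U) v w}.Infinite} =
      ⋃ v : Vtx, {U : Wt | {w | Reach (lo hlf U) v w}.Infinite} := by
    ext U; simp
  rw [h1, measure_iUnion_null_iff]
  intro v
  obtain ⟨c1, C, hc1, hC, hcrit⟩ := Pool.Agent.W424.NC.arm_crit
  have h2 : ∀ n : ℕ, {U : Wt | {w | Reach (lo hlf U) v w}.Infinite} ⊆ AX v n hlf := by
    intro n U hU
    have hU' : {w | Reach (lo hlf U) v w}.Infinite := hU
    have hfin : (Set.Icc (v.1 - n) (v.1 + n) ×ˢ Set.Icc (v.2 - n) (v.2 + n)).Finite :=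
      (Set.finite_Icc _ _).prod (Set.finite_Icc _ _)
    obtain ⟨w, hw, hw'⟩ := hU'.exists_notMem_finite hfin
    refine mem_AX (u := w) ?_ hw
    simp only [Set.mem_prod, Set.mem_Icc] at hw'
    omega
  have h3 : ∀ n : ℕ, 1 ≤ n → wlaw.real {U : Wt | {w | Reach (lo hlf U) v w}.Infinite} ≤
      C * (n:ℝ)^(-(5/48) : ℝ) := by
    intro n hn
    have h4 : ((hlf : unitInterval) : ℝ) = 1/2 := rfl
    have h5 := AX_le v n hlf
    rw [h4] at h5
    exact (measureReal_mono (h2 n)).trans (h5.trans (hcrit n hn).2)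
  have h4 : Tendsto (fun n : ℕ => C * (n:ℝ)^(-(5/48) : ℝ)) atTop (𝓝 (C * 0)) :=
    ((tendsto_rpow_neg_atTop (by norm_num : (0:ℝ) < 5/48)).comp
      tendsto_natCast_atTop_atTop).const_mul C
  rw [mul_zero] at h4
  have h5 : wlaw.real {U : Wt | {w | Reach (lo hlf U) v w}.Infinite} ≤ 0 :=
    ge_of_tendsto h4 (Filter.eventually_atTop.mpr ⟨1, h3⟩)
  have h6 : wlaw.real {U : Wt | {w | Reach (lo hlf U) v w}.Infinite} = 0 :=
    le_antisymm h5 measureReal_nonneg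
  exact (measureReal_eq_zero_iff (measure_ne_top _ _)).mp h6

theorem lower_gen {E T : Set Wt}
    (h : ∀ U ∈ E, (∀ v, {w | Reach (lo hlf U) v w}.Finite) → U ∈ T) :
    wlaw.real E ≤ wlaw.real T := by
  have h1 : E ⊆ T ∪ {U | ∃ v, {w | Reach (lo hlf U) v w}.Infinite} := by
    intro U hU
    by_cases hv : ∃ v, {w | Reach (lo hlf U) v w}.Infinite
    · exact Or.inr hv
    · left
      apply h U hU
      intro v
      by_contra hcon
      exact hv ⟨v, hcon⟩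
  have h2 : wlaw.real {U : Wt | ∃ v, {w | Reach (lo hlf U) v w}.Infinite} = 0 :=
    (measureReal_eq_zero_iff (measure_ne_top _ _)).mpr ae_fin
  have h3 := measureReal_mono (μ := wlaw) h1
  have h4 := measureReal_union_le (μ := wlaw) T {U | ∃ v, {w | Reach (lo hlf U) v w}.Infinite}
  linarith

theorem XQ_incr (S : Finset Edg) (x : Vtx) (r : ℕ) : IncrE S (XQ x r) := by
  rintro F G h _ ⟨u, h1, h2⟩
  exact ⟨u, h1, h2.mono (by exact_mod_cast h)⟩

theorem armX_ge {q : ℝ} (h0 : 0 ≤ q) (h1 : q ≤ 1) (x : Vtx) (r : ℕ) {S : Finset Edg}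
    (hS : bx x r ⊆ S) : arm q r ≤ Pr (fun _ => q) S (XQ x r) := by
  have e2 : Pr (fun _ => q) (bx x r) (XQ x r) ≤ Pr (fun _ => q) S (XQ x r) :=
    Pr_mono_set (okq h0 h1) hS (XQ_incr _ _ _)
  refine le_trans ?_ e2
  obtain ⟨a, b⟩ := x
  have hBeq : (trl a b).mp (boxE r) = bx (a, b) r := by
    unfold boxE bx
    rw [trl_RE]
    congr 1 <;> ring
  rw [← hBeq, LSym.pr]
  unfold arm
  apply Pr_mono (okq h0 h1)
  rintro F _ ⟨⟨w1, w2⟩, k1, k2⟩
  refine ⟨(w1 + a, w2 + b), ?_, ?_⟩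
  · unfold onB inR at k1
    simp only at k1 ⊢
    omega
  · have k3 := (trl a b).reach k2
    rw [trl_ψ, trl_ψ] at k3
    simp only [zero_add] at k3
    refine k3.mono ?_
    rw [LSym.coe_mp]
    exact Set.image_mono Set.inter_subset_left

theorem one_lower : ∃ c : ℝ, 0 < c ∧ ∀ (x : Vtx) (N : ℕ), 1 ≤ N → (N:ℤ) = max |x.1| |x.2| →
    c * (N:ℝ)^(-(5/48) : ℝ) ≤ wlaw.real {U | x ∈ region U} := by
  obtain ⟨c1, C, hc1, hC, hcrit⟩ := Pool.Agent.W424.NC.arm_crit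
  refine ⟨(1/2 : ℝ)^188 * (c1 / 4), by positivity, ?_⟩
  intro x N hN hNx
  have hN0 : (0:ℝ) < N := by exact_mod_cast hN
  have hN' : (1:ℤ) ≤ N := by exact_mod_cast hN
  have hx1 : |x.1| ≤ N := by rw [hNx]; exact le_max_left _ _
  have hx2 : |x.2| ≤ N := by rw [hNx]; exact le_max_right _ _
  rw [abs_le] at hx1 hx2
  obtain ⟨S, hS⟩ : ∃ S, S = boxE (6 * N) := ⟨_, rfl⟩
  have s1 : bx x (4 * N) ⊆ S := by
    rw [hS]
    unfold bx boxE
    exact RE_subset (by push_cast; omega) (by push_cast; omega) (by push_cast; omega)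
      (by push_cast; omega)
  have s2 : RE (-(3 * (N:ℤ))) (3 * N) (-(3 * N)) (3 * N) ⊆ S := by
    rw [hS]
    unfold boxE
    exact RE_subset (by push_cast; omega) (by push_cast; omega) (by push_cast; omega)
      (by push_cast; omega)
  have e1 := armX_ge (q := 1/2) (by norm_num) (by norm_num) x (4 * N) s1
  have e3 : (1/2 : ℝ)^188 ≤ Pr (fun _ => (1/2 : ℝ)) S (Circ N (3 * N)) := by
    refine le_trans ?_ (pr_Circ (q := 1/2) (by norm_num) (by norm_num) (R1 := N)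
      (R2 := 3 * (N:ℤ)) (by positivity) (by omega) s2)
    have k := rsw_p (p := 1/2) le_rfl (by norm_num) (n := (N:ℤ)) (w := 2 * (3 * (N:ℤ)))
      (h := 3 * (N:ℤ) - N) (by omega) (by omega) (by omega) (by omega)
    calc (1/2 : ℝ)^188 = ((1/2 : ℝ)^47)^4 := by norm_num
      _ ≤ _ := pow_le_pow_left₀ (by positivity) k 4
  have i1 := Pr_harris (okq (q := 1/2) (by norm_num) (by norm_num)) (S := S)
    (A := Circ N (3 * (N:ℤ))) (B := XQ x (4 * N)) (fun F G h _ hF => hF.mono h)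
    (XQ_incr S x (4 * N))
  have h4 : ((hlf : unitInterval) : ℝ) = 1/2 := rfl
  have i2 := wlaw_event hlf S (fun F => Circ N (3 * (N:ℤ)) F ∧ XQ x (4 * N) F)
  rw [h4] at i2
  have i3 : wlaw.real {U | Circ N (3 * (N:ℤ)) (FF S (thr hlf U)) ∧
      XQ x (4 * N) (FF S (thr hlf U))} ≤ wlaw.real {U | x ∈ region U} := by
    apply lower_gen
    rintro U ⟨hC, u, hu, hr⟩ hfin
    have hsub : (↑(FF S (thr hlf U)) : Set Edg) ⊆ lo hlf U := by
      rw [FF_lo]; exact Set.inter_subset_left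
    have hCs : CircS N (3 * (N:ℤ)) (lo hlf U) := by
      obtain ⟨⟨⟨t1, t2, g1, g2, g3⟩, ⟨b1, b2, g4, g5, g6⟩⟩, ⟨r1, r2, g7, g8, g9⟩,
        ⟨l1, l2, g10, g11, g12⟩⟩ := hC
      exact ⟨⟨⟨t1, t2, g1, g2, g3.mono (Set.inter_subset_inter_left _ hsub)⟩,
        ⟨b1, b2, g4, g5, g6.mono (Set.inter_subset_inter_left _ hsub)⟩⟩,
        ⟨r1, r2, g7, g8, g9.mono (Set.inter_subset_inter_left _ hsub)⟩,
        ⟨l1, l2, g10, g11, g12.mono (Set.inter_subset_inter_left _ hsub)⟩⟩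
    refine lower_det (v := u) (R1 := N) (R2 := 3 * (N:ℤ)) (by omega) (by omega) hCs hfin
      (by unfold inR; omega) ?_ (hr.mono hsub)
    push_cast at hu
    omega
  have hcr := (hcrit (4 * N) (by omega)).1
  have hpw : (N:ℝ)^(-(5/48) : ℝ) ≤ 4 * ((4 * N : ℕ) : ℝ)^(-(5/48) : ℝ) := by
    push_cast
    exact pw_le hN0 (by positivity) (by norm_num) (by linarith)
  have harm0 : 0 ≤ arm (1/2) (4 * N) := arm_nonneg (by norm_num) (by norm_num) _
  calc (1/2 : ℝ)^188 * (c1 / 4) * (N:ℝ)^(-(5/48) : ℝ)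
      ≤ (1/2 : ℝ)^188 * (c1 / 4) * (4 * ((4 * N : ℕ) : ℝ)^(-(5/48) : ℝ)) :=
        mul_le_mul_of_nonneg_left hpw (by positivity)
    _ = (1/2 : ℝ)^188 * (c1 * ((4 * N : ℕ) : ℝ)^(-(5/48) : ℝ)) := by ring
    _ ≤ (1/2 : ℝ)^188 * arm (1/2) (4 * N) := mul_le_mul_of_nonneg_left hcr (by positivity)
    _ ≤ Pr (fun _ => (1/2 : ℝ)) S (Circ N (3 * N)) *
        Pr (fun _ => (1/2 : ℝ)) S (XQ x (4 * N)) := mul_le_mul e3 e1 harm0
          (le_trans (by positivity) e3)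
    _ ≤ _ := i1
    _ = _ := i2.symm
    _ ≤ _ := i3

end Pool.Agent.Helper911.Inv
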