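import Pool.Agent.Helper911_Inv.Bad
import Pool.Agent.W424.NC.Win

/-!
The upper bound: decomposition over the thresholds.
-/

set_option autoImplicit false
set_option maxHeartbeats 1000000

namespace Pool.Agent.Helper911.Inv

open H974 H31K MeasureTheory ProbabilityTheory Pool.Agent.W424.NC

theorem exp_neg_le {t : ℝ} (ht : 0 < t) : Real.exp (-t) ≤ 2 / t^2 := by
  have h := Real.quadratic_le_exp_of_nonneg ht.le
  have h1 : t^2 / 2 ≤ Real.exp t := by linarith
  rw [Real.exp_neg, inv_eq_one_div, div_le_div_iff₀ (Real.exp_pos _) (by positivity)]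
  linarith

theorem cross_bd : ∃ A : ℝ, 0 < A ∧ ∀ q : ℝ, 1/2 < q → q ≤ 3/4 → ∀ w h : ℕ, 1 ≤ w → 1 ≤ h →
    w ≤ 8 * h → h ≤ 8 * w → 1 - hh q w h ≤ (A / (q - 1/2)^(8/3 : ℝ)) / (w:ℝ)^2 := by
  obtain ⟨c, C, hc, hC, hw⟩ := win_upper_dual 8 (by norm_num)
  refine ⟨2 * C / c^2, by positivity, ?_⟩
  intro q hq hq1 w h hw1 hh1 hwh hhw
  have h1 := hw (1 - q) (by linarith) (by linarith) w h hw1 hh1 hwh hhw
  rw [show 1 - (1 - q) = q by ring, show 1/2 - (1 - q) = q - 1/2 by ring] at h1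
  have hs : 0 < q - 1/2 := by linarith
  have hw0 : (0:ℝ) < w := by exact_mod_cast hw1
  obtain ⟨s, hsd⟩ : ∃ s, s = (q - 1/2)^(4/3 : ℝ) := ⟨_, rfl⟩
  have hs0 : 0 < s := by rw [hsd]; exact Real.rpow_pos_of_pos hs _
  have hs2 : (q - 1/2)^(8/3 : ℝ) = s^2 := by
    rw [hsd, ← Real.rpow_natCast, ← Real.rpow_mul hs.le]
    norm_num
  rw [← hsd] at h1
  rw [hs2]
  refine h1.trans ?_
  have h2 := exp_neg_le (t := c * (w * s)) (by positivity)
  calc C * Real.exp (-(c * (w * s))) ≤ C * (2 / (c * (w * s))^2) :=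
        mul_le_mul_of_nonneg_left h2 hC.le
    _ = 2 * C / c ^ 2 / s ^ 2 / (w:ℝ) ^ 2 := by field_simp

theorem pw_le {n r M : ℝ} (_hn : 0 < n) (hr : 0 < r) (hM : 1 ≤ M) (h : r ≤ n * M) :
    n^(-(5/48) : ℝ) ≤ M * r^(-(5/48) : ℝ) := by
  have hM0 : 0 < M := by linarith
  have h1 : r / M ≤ n := by rw [div_le_iff₀ hM0]; exact h
  have h2 : n^(-(5/48) : ℝ) ≤ (r / M)^(-(5/48) : ℝ) :=
    Real.rpow_le_rpow_of_nonpos (by positivity) h1 (by norm_num)
  have h3 : (r / M)^(-(5/48) : ℝ) = r^(-(5/48) : ℝ) * M^(5/48 : ℝ) := by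
    rw [Real.div_rpow hr.le hM0.le, Real.rpow_neg hM0.le, div_inv_eq_mul]
  have h4 : M^(5/48 : ℝ) ≤ M := by
    calc M^(5/48 : ℝ) ≤ M^(1:ℝ) := Real.rpow_le_rpow_of_exponent_le hM (by norm_num)
      _ = M := Real.rpow_one M
  calc n^(-(5/48) : ℝ) ≤ _ := h2
    _ = _ := h3
    _ ≤ r^(-(5/48) : ℝ) * M := mul_le_mul_of_nonneg_left h4 (by positivity)
    _ = _ := mul_comm _ _

theorem Sep.zero {x : Vtx} {m : ℤ} {r : ℕ} (h : Sep x m r) : Sep x m 0 := by
  have hb : bx x 0 ⊆ bx x r := by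
    unfold bx
    exact RE_subset (by push_cast; omega) (by push_cast; omega) (by push_cast; omega)
      (by push_cast; omega)
  exact ⟨h.pos, by have := h.pos; push_cast; omega, Finset.disjoint_of_subset_right hb h.c1,
    Finset.disjoint_of_subset_right hb h.c2, Finset.disjoint_of_subset_right hb h.c3,
    Finset.disjoint_of_subset_right hb h.c4⟩

theorem AX_zero (x : Vtx) (q : unitInterval) (U : Wt) : U ∈ AX x 0 q :=
  ⟨x, by push_cast; omega, Reach.refl _ _⟩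

/-- The upper bound for events which imply an arm as soon as there is a circuit joined to
infinity. -/
theorem upper_gen : ∃ K : ℝ, 0 < K ∧ ∀ (x : Vtx) (m r : ℕ), Sep x m r → 1 ≤ r → m ≤ 2 * r →
    ∀ T : Set Wt, (∀ q : unitInterval, ∀ U ∈ T, U ∉ Bad x m q → U ∈ AX x r q) →
      wlaw.real T ≤ K * (m:ℝ)^(-(5/48) : ℝ) := by
  obtain ⟨κ, b0, hκ, hb0, harmS⟩ := armS
  obtain ⟨c1, C, hc1, hC, hcrit⟩ := Pool.Agent.W424.NC.arm_crit
  obtain ⟨A, hA, hcr⟩ := cross_bd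
  obtain ⟨b, hb⟩ : ∃ b, b = min b0 (1/4) := ⟨_, rfl⟩
  have hbpos : 0 < b := by rw [hb]; exact lt_min hb0 (by norm_num)
  have hbb0 : b ≤ b0 := by rw [hb]; exact min_le_left _ _
  have hb4 : b ≤ 1/4 := by rw [hb]; exact min_le_right _ _
  obtain ⟨K0, hK0⟩ : ∃ K0, K0 = 8 * A / b^(8/3 : ℝ) := ⟨_, rfl⟩
  have hK0pos : 0 < K0 := by rw [hK0]; positivity
  refine ⟨2 * (3 * C + 24 * K0 * C + 2 * K0), by positivity, ?_⟩
  intro x m r hS hr hmr T hT
  have hrm : r ≤ m := by exact_mod_cast hS.le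
  have hr0 : (0:ℝ) < r := by exact_mod_cast hr
  have hm0 : (0:ℝ) < m := by
    have : 0 < m := by omega
    exact_mod_cast this
  have hrm' : (r:ℝ) ≤ m := by exact_mod_cast hrm
  -- the scales
  obtain ⟨n, hn⟩ : ∃ n : ℕ → ℕ, n = fun j => r / 2^j := ⟨_, rfl⟩
  obtain ⟨J, hJ⟩ : ∃ J, J = Nat.log 2 r := ⟨_, rfl⟩
  have hJ1 : 2^J ≤ r := by rw [hJ]; exact Nat.pow_log_le_self 2 (by omega)
  have hJ2 : r < 2^(J+1) := by rw [hJ]; exact Nat.lt_pow_succ_log_self (by norm_num) r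
  have hn1 : ∀ j, j ≤ J → 1 ≤ n j := by
    intro j hj
    rw [hn]
    show 1 ≤ r / 2^j
    rw [Nat.one_le_div_iff (by positivity)]
    exact (Nat.pow_le_pow_right (by norm_num) hj).trans hJ1
  have hnr : ∀ j, n j ≤ r := by intro j; rw [hn]; exact Nat.div_le_self _ _
  have hnj : ∀ j, (n j : ℝ) * 2^j ≤ r := by
    intro j
    have : n j * 2^j ≤ r := by rw [hn]; exact Nat.div_mul_le_self r _
    exact_mod_cast this
  have hnj2 : ∀ j, j ≤ J → (r:ℝ) ≤ n j * 2^(j+1) := by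
    intro j hj
    have h1 := hn1 j hj
    have h2 : r < 2^j * (n j + 1) := by rw [hn]; exact Nat.lt_mul_div_succ r (by positivity)
    have h3 : 2^j * (n j + 1) ≤ n j * 2^(j+1) := by
      rw [pow_succ]
      have h4 := Nat.mul_le_mul_left (2^j) (show n j + 1 ≤ 2 * n j by omega)
      calc 2^j * (n j + 1) ≤ 2^j * (2 * n j) := h4
        _ = n j * (2^j * 2) := by ring
    exact_mod_cast (h2.le.trans h3)
  -- the thresholds
  have hs : ∀ j : ℕ, 0 ≤ b * (n j : ℝ)^(-(3/4) : ℝ) ∧ b * (n j : ℝ)^(-(3/4) : ℝ) ≤ 1/4 := by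
    intro j
    refine ⟨by positivity, ?_⟩
    rcases Nat.eq_zero_or_pos (n j) with h0 | h0
    · rw [h0, Nat.cast_zero, Real.zero_rpow (by norm_num)]
      norm_num
    · have h1 : (1:ℝ) ≤ n j := by exact_mod_cast h0
      have h2 : (n j : ℝ)^(-(3/4) : ℝ) ≤ 1 :=
        Real.rpow_le_one_of_one_le_of_nonpos h1 (by norm_num)
      have h3 : 0 ≤ (n j : ℝ)^(-(3/4) : ℝ) := by positivity
      nlinarith
  obtain ⟨q, hq⟩ : ∃ q : ℕ → unitInterval, ∀ j, (q j : ℝ) = 1/2 + b * (n j : ℝ)^(-(3/4) : ℝ) :=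
    ⟨fun j => ⟨1/2 + b * (n j : ℝ)^(-(3/4) : ℝ), by have := hs j; constructor <;> linarith⟩,
      fun j => rfl⟩
  -- arms
  have harm : ∀ j, j ≤ J → arm (q j) r ≤ 3 * C * (n j : ℝ)^(-(5/48) : ℝ) := by
    intro j hj
    have h1 := arm_anti (q j).2.1 (q j).2.2 (hnr j)
    have h2 := (harmS (n j) (hn1 j hj) (q j) (by
      rw [hq j, add_sub_cancel_left, abs_of_nonneg (hs j).1]
      exact mul_le_mul_of_nonneg_right hbb0 (by positivity))).2.1
    have h3 := (hcrit (n j) (hn1 j hj)).2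
    calc arm (q j) r ≤ _ := h1
      _ ≤ _ := h2
      _ ≤ 3 * (C * (n j : ℝ)^(-(5/48) : ℝ)) := by linarith
      _ = _ := by ring
  -- bad events
  have hbad : ∀ j, j ≤ J → ∀ (r' : ℕ) (q' : unitInterval), Sep x m r' →
      wlaw.real (Bad x m (q j) ∩ AX x r' q') ≤ K0 * (1/4)^j * arm q' r' := by
    intro j hj r' q' hS'
    have hnj0 : (0:ℝ) < n j := by exact_mod_cast hn1 j hj
    have hspos : 0 < b * (n j : ℝ)^(-(3/4) : ℝ) := by positivity
    have e1 : (q j : ℝ) - 1/2 = b * (n j : ℝ)^(-(3/4) : ℝ) := by rw [hq j]; ring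
    have h1 := bad_le (A := A / ((q j : ℝ) - 1/2)^(8/3 : ℝ)) (q := q j) (q' := q') hS'
      (by rw [e1]; positivity)
      (fun w h hw hh1 hwh hhw => hcr (q j) (by rw [hq j]; linarith)
        (by rw [hq j]; have := (hs j).2; linarith) w h hw hh1 hwh hhw)
    refine h1.trans ?_
    apply mul_le_mul_of_nonneg_right _ (arm_nonneg q'.2.1 q'.2.2 r')
    have e2 : ((q j : ℝ) - 1/2)^(8/3 : ℝ) = b^(8/3 : ℝ) / (n j : ℝ)^2 := by
      rw [e1, Real.mul_rpow hbpos.le (by positivity), ← Real.rpow_mul hnj0.le,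
        show (-(3/4) : ℝ) * (8/3) = -(2:ℝ) by norm_num, Real.rpow_neg hnj0.le, Real.rpow_two]
      rfl
    rw [e2]
    have e3 : 8 * (A / (b^(8/3 : ℝ) / (n j : ℝ)^2)) / (m:ℝ)^2 = K0 * ((n j : ℝ) / m)^2 := by
      rw [hK0]; field_simp
    rw [e3]
    apply mul_le_mul_of_nonneg_left _ hK0pos.le
    have h2 : (n j : ℝ) / m ≤ (1/2)^j := by
      rw [div_le_iff₀ hm0, one_div, inv_pow, inv_mul_eq_div, le_div_iff₀ (by positivity)]
      exact (hnj j).trans hrm'
    calc ((n j : ℝ) / m)^2 ≤ ((1/2 : ℝ)^j)^2 := pow_le_pow_left₀ (by positivity) h2 2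
      _ = (1/4)^j := by rw [← pow_mul, mul_comm, pow_mul]; norm_num
  -- the decomposition
  have hdec : T ⊆ AX x r (q 0) ∪ ((⋃ j ∈ Finset.range J, (Bad x m (q j) ∩ AX x r (q (j+1)))) ∪
      (Bad x m (q J) ∩ AX x 0 (q J))) := by
    intro U hU
    by_cases hJb : U ∈ Bad x m (q J)
    · right; right
      exact ⟨hJb, AX_zero _ _ _⟩
    · classical
      have hex : ∃ j, U ∉ Bad x m (q j) := ⟨J, hJb⟩
      have hle : Nat.find hex ≤ J := Nat.find_min' hex hJb
      have hspec := Nat.find_spec hex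
      have hmin := fun i (hi : i < Nat.find hex) => Nat.find_min hex hi
      rcases Nat.eq_zero_or_pos (Nat.find hex) with h0 | h0
      · left
        rw [h0] at hspec
        exact hT (q 0) U hU hspec
      · right; left
        obtain ⟨i, hi⟩ : ∃ i, Nat.find hex = i + 1 := ⟨Nat.find hex - 1, by omega⟩
        rw [hi] at hspec
        have h3 := hmin i (by omega)
        rw [not_not] at h3
        simp only [Set.mem_iUnion]
        exact ⟨i, Finset.mem_range.mpr (by omega), h3, hT (q (i+1)) U hU hspec⟩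
  obtain ⟨R, hR⟩ : ∃ R, R = (r:ℝ)^(-(5/48) : ℝ) := ⟨_, rfl⟩
  have hR0 : 0 < R := by rw [hR]; positivity
  have b1 : wlaw.real (AX x r (q 0)) ≤ 3 * C * R := by
    refine (AX_le x r (q 0)).trans ((harm 0 (Nat.zero_le _)).trans ?_)
    have : n 0 = r := by rw [hn]; simp
    rw [this, hR]
  have b2 : ∀ j ∈ Finset.range J, wlaw.real (Bad x m (q j) ∩ AX x r (q (j+1))) ≤
      12 * K0 * C * R * (1/2)^j := by
    intro j hj
    rw [Finset.mem_range] at hj
    have h1 := hbad j hj.le r (q (j+1)) hS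
    have h2 := harm (j+1) (by omega)
    have hnpos : (0:ℝ) < n (j+1) := by exact_mod_cast hn1 (j+1) (by omega)
    have h3 := pw_le hnpos hr0 (M := 2^(j+1+1)) (one_le_pow₀ (by norm_num))
      (hnj2 (j+1) (by omega))
    rw [← hR] at h3
    have e : (1/4 : ℝ)^j * 2^j = (1/2)^j := by rw [← mul_pow]; norm_num
    calc wlaw.real (Bad x m (q j) ∩ AX x r (q (j+1))) ≤ K0 * (1/4)^j * arm (q (j+1)) r := h1
      _ ≤ K0 * (1/4)^j * (3 * C * (2^(j+1+1) * R)) := by
          apply mul_le_mul_of_nonneg_left _ (by positivity)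
          exact h2.trans (mul_le_mul_of_nonneg_left h3 (by positivity))
      _ = 12 * K0 * C * R * ((1/4)^j * 2^j) := by rw [pow_succ, pow_succ]; ring
      _ = _ := by rw [e]
  have b3 : wlaw.real (Bad x m (q J) ∩ AX x 0 (q J)) ≤ 2 * K0 * R := by
    have h1 := hbad J le_rfl 0 (q J) hS.zero
    rw [arm_zero, mul_one] at h1
    have h3 := pw_le (n := 1) (r := r) (M := 2^(J+1)) one_pos hr0 (one_le_pow₀ (by norm_num))
      (by rw [one_mul]; exact_mod_cast hJ2.le)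
    rw [Real.one_rpow, ← hR] at h3
    have e : (1/4 : ℝ)^J * 2^J = (1/2)^J := by rw [← mul_pow]; norm_num
    have h4 : (1/2 : ℝ)^J ≤ 1 := pow_le_one₀ (by norm_num) (by norm_num)
    calc _ ≤ K0 * (1/4)^J := h1
      _ = K0 * (1/4)^J * 1 := by ring
      _ ≤ K0 * (1/4)^J * (2^(J+1) * R) := mul_le_mul_of_nonneg_left h3 (by positivity)
      _ = 2 * K0 * R * ((1/4)^J * 2^J) := by rw [pow_succ]; ring
      _ = 2 * K0 * R * (1/2)^J := by rw [e]
      _ ≤ 2 * K0 * R * 1 := mul_le_mul_of_nonneg_left h4 (by positivity)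
      _ = _ := by ring
  have b4 : wlaw.real (⋃ j ∈ Finset.range J, (Bad x m (q j) ∩ AX x r (q (j+1)))) ≤
      24 * K0 * C * R := by
    refine (measureReal_biUnion_finset_le _ _).trans ?_
    refine (Finset.sum_le_sum b2).trans ?_
    rw [← Finset.mul_sum]
    have hg : ∑ j ∈ Finset.range J, (1/2 : ℝ)^j ≤ 2 := by
      have := Summable.sum_le_tsum (Finset.range J) (fun j _ => by positivity)
        (summable_geometric_of_lt_one (r := (1/2:ℝ)) (by norm_num) (by norm_num))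
      rw [tsum_geometric_of_lt_one (by norm_num) (by norm_num)] at this
      norm_num at this ⊢
      exact this
    calc 12 * K0 * C * R * ∑ j ∈ Finset.range J, (1/2 : ℝ)^j ≤ 12 * K0 * C * R * 2 :=
          mul_le_mul_of_nonneg_left hg (by positivity)
      _ = _ := by ring
  have b5 : wlaw.real T ≤ (3 * C + 24 * K0 * C + 2 * K0) * R := by
    refine (measureReal_mono hdec).trans ((measureReal_union_le _ _).trans ?_)
    have := measureReal_union_le (μ := wlaw)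
      (⋃ j ∈ Finset.range J, (Bad x m (q j) ∩ AX x r (q (j+1)))) (Bad x m (q J) ∩ AX x 0 (q J))
    linarith
  have h6 : R ≤ 2 * (m:ℝ)^(-(5/48) : ℝ) := by
    rw [hR]
    exact pw_le hr0 hm0 (by norm_num) (by
      have : (m:ℝ) ≤ 2 * r := by exact_mod_cast hmr
      linarith)
  calc wlaw.real T ≤ _ := b5
    _ ≤ (3 * C + 24 * K0 * C + 2 * K0) * (2 * (m:ℝ)^(-(5/48) : ℝ)) :=
        mul_le_mul_of_nonneg_left h6 (by positivity)
    _ = _ := by ring

end Pool.Agent.Helper911.Inv
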