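import Pool.Agent.Helper911_Inv.Pond

/-!
Measurability and the expected volume of the invaded region.
-/

set_option autoImplicit false
set_option maxHeartbeats 1000000

namespace Pool.Agent.Helper911.Inv

open H974 H31K MeasureTheory ProbabilityTheory Filter Topology

theorem grow_meas (A : Set Vtx) (v : Vtx) : MeasurableSet {U : Wt | v ∈ grow U A} := by
  have h1 : {U : Wt | v ∈ grow U A} = {_U : Wt | v ∈ A} ∪
      ⋃ e ∈ {e | e ∈ bdryE A ∧ v ∈ (e : Sym2 (ℤ × ℤ))}, ⋂ f ∈ bdryE A, {U : Wt | U e ≤ U f} := by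
    ext U
    unfold grow
    simp only [Set.mem_union, Set.mem_ofPred_eq, Set.mem_iUnion, Set.mem_iInter, exists_prop,
      and_assoc]
  rw [h1]
  apply MeasurableSet.union (MeasurableSet.const _)
  apply MeasurableSet.biUnion (Set.to_countable _)
  intro e _
  apply MeasurableSet.biInter (Set.to_countable _)
  intro f _
  exact measurableSet_le (measurable_pi_apply e) (measurable_pi_apply f)

theorem inv_meas (i : ℕ) : ∀ v, MeasurableSet {U : Wt | v ∈ inv U i} := by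
  induction i with
  | zero => exact fun v => MeasurableSet.const _
  | succ i ih =>
    intro v
    have h1 : {U : Wt | v ∈ inv U (i + 1)} =
        ⋃ A : Finset Vtx, ((⋂ w : Vtx, {U : Wt | w ∈ inv U i ↔ w ∈ A}) ∩
          {U : Wt | v ∈ grow U ↑A}) := by
      ext U
      simp only [Set.mem_iUnion, Set.mem_inter_iff, Set.mem_iInter, Set.mem_ofPred_eq]
      constructor
      · intro h
        refine ⟨(inv_finite U i).toFinset, fun w => by simp, ?_⟩
        rw [Set.Finite.coe_toFinset]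
        exact h
      · rintro ⟨A, h2, h3⟩
        have : inv U i = ↑A := by
          ext w; rw [h2 w]; rfl
        rw [inv_succ, this]
        exact h3
    rw [h1]
    apply MeasurableSet.iUnion
    intro A
    apply MeasurableSet.inter _ (grow_meas _ v)
    apply MeasurableSet.iInter
    intro w
    by_cases hw : w ∈ A
    · simp only [hw, iff_true]
      exact ih w
    · simp only [hw, iff_false]
      exact (ih w).compl

theorem region_meas (v : Vtx) : MeasurableSet {U : Wt | v ∈ region U} := by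
  have h1 : {U : Wt | v ∈ region U} = ⋃ i, {U : Wt | v ∈ inv U i} := by
    ext U; simp [region]
  rw [h1]
  exact MeasurableSet.iUnion (fun i => inv_meas i v)

/-- The vertices of the box `[-n, n]²`. -/
noncomputable def box (n : ℕ) : Finset (ℤ × ℤ) :=
  Finset.Icc (-(n : ℤ)) n ×ˢ Finset.Icc (-(n : ℤ)) n

theorem vol_eq (n : ℕ) : ∫ U, ((region U ∩ ↑(box n)).ncard : ℝ) ∂wlaw =
    ∑ x ∈ box n, wlaw.real {U | x ∈ region U} := by
  classical
  have h1 : ∀ U : Wt, ((region U ∩ ↑(box n)).ncard : ℝ) =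
      ∑ x ∈ box n, Set.indicator {U : Wt | x ∈ region U} (fun _ => (1:ℝ)) U := by
    intro U
    have h2 : region U ∩ ↑(box n) = ↑((box n).filter (fun x => x ∈ region U)) := by
      ext x
      simp [and_comm]
    rw [h2, Set.ncard_coe_finset, Finset.card_filter]
    push_cast
    apply Finset.sum_congr rfl
    intro x _
    simp [Set.indicator_apply]
  simp_rw [h1]
  rw [integral_finsetSum]
  · apply Finset.sum_congr rfl
    intro x _
    rw [integral_indicator (region_meas x)]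
    simp
  · intro x _
    exact (integrable_const (1:ℝ)).indicator (region_meas x)

theorem sum_Icc (g : ℕ → ℝ) (n : ℕ) : ∑ a ∈ Finset.Icc (-(n:ℤ)) n, g a.natAbs =
    g 0 + 2 * ∑ k ∈ Finset.range n, g (k + 1) := by
  induction n with
  | zero => simp
  | succ n ih =>
    have h1 : Finset.Icc (-((n + 1 : ℕ) : ℤ)) ((n + 1 : ℕ) : ℤ) =
        insert ((n:ℤ) + 1) (insert (-((n:ℤ) + 1)) (Finset.Icc (-(n:ℤ)) n)) := by
      ext a
      simp only [Finset.mem_Icc, Finset.mem_insert]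
      push_cast
      omega
    rw [h1, Finset.sum_insert (by
      simp only [Finset.mem_Icc, Finset.mem_insert]; omega), Finset.sum_insert (by
      simp only [Finset.mem_Icc]; omega), ih, Finset.sum_range_succ]
    have e1 : ((n:ℤ) + 1).natAbs = n + 1 := by omega
    have e2 : (-((n:ℤ) + 1)).natAbs = n + 1 := by omega
    rw [e1, e2]
    ring

theorem sum_pow (n : ℕ) : ∑ k ∈ Finset.range n, ((k + 1 : ℕ) : ℝ)^(-(5/48) : ℝ) ≤
    2 * (n:ℝ)^(43/48 : ℝ) := by
  rcases Nat.eq_zero_or_pos n with h0 | h0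
  · subst h0
    simp
  have hn0 : (0:ℝ) < n := by exact_mod_cast h0
  have h1 : ∀ k ∈ Finset.range n, ((k + 1 : ℕ) : ℝ)^(-(5/48) : ℝ) ≤
      (n:ℝ)^(19/48 : ℝ) * (1 / Real.sqrt ((k:ℝ) + 1)) := by
    intro k hk
    rw [Finset.mem_range] at hk
    have hk0 : (0:ℝ) < (k:ℝ) + 1 := by positivity
    have e1 : ((k + 1 : ℕ) : ℝ) = (k:ℝ) + 1 := by push_cast; ring
    have e2 : ((k:ℝ) + 1)^(-(5/48) : ℝ) = ((k:ℝ) + 1)^(19/48 : ℝ) * ((k:ℝ) + 1)^(-(1/2) : ℝ) := by
      rw [← Real.rpow_add hk0]; norm_num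
    have e3 : ((k:ℝ) + 1)^(-(1/2) : ℝ) = 1 / Real.sqrt ((k:ℝ) + 1) := by
      rw [Real.rpow_neg hk0.le, Real.sqrt_eq_rpow, one_div ((((k:ℝ) + 1)^(1/2 : ℝ)))]
    rw [e1, e2, e3]
    apply mul_le_mul_of_nonneg_right _ (by positivity)
    apply Real.rpow_le_rpow hk0.le _ (by norm_num)
    have : k + 1 ≤ n := hk
    exact_mod_cast this
  refine (Finset.sum_le_sum h1).trans ?_
  rw [← Finset.mul_sum]
  have h2 := sum_inv_sqrt n
  have e3 : (n:ℝ)^(43/48 : ℝ) = (n:ℝ)^(19/48 : ℝ) * Real.sqrt n := by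
    rw [Real.sqrt_eq_rpow, ← Real.rpow_add hn0]; norm_num
  rw [e3]
  calc (n:ℝ)^(19/48 : ℝ) * ∑ k ∈ Finset.range n, (1 / Real.sqrt ((k:ℝ) + 1))
      ≤ (n:ℝ)^(19/48 : ℝ) * (2 * Real.sqrt n) := mul_le_mul_of_nonneg_left h2 (by positivity)
    _ = _ := by ring

theorem vol_upper : ∃ K : ℝ, 0 < K ∧ ∀ n : ℕ, 1 ≤ n →
    ∫ U, ((region U ∩ ↑(box n)).ncard : ℝ) ∂wlaw ≤ K * (n:ℝ)^(91/48 : ℝ) := by
  obtain ⟨K, hK, hup⟩ := one_upper
  refine ⟨3 * (1 + 4 * K), by positivity, ?_⟩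
  intro n hn
  have hn0 : (0:ℝ) < n := by exact_mod_cast hn
  have hn1 : (1:ℝ) ≤ n := by exact_mod_cast hn
  rw [vol_eq]
  obtain ⟨g, hg⟩ : ∃ g : ℕ → ℝ, g = fun k : ℕ => if k = 0 then 1 else K * (k:ℝ)^(-(5/48) : ℝ) :=
    ⟨_, rfl⟩
  have h1 : ∀ x ∈ box n, wlaw.real {U | x ∈ region U} ≤ g x.1.natAbs := by
    intro x _
    rw [hg]
    simp only
    split_ifs with h0
    · exact measureReal_le_one
    · have hk : (1:ℤ) ≤ |x.1| := by rcases abs_cases x.1 with h | h <;> omega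
      obtain ⟨N, hN⟩ := Int.eq_ofNat_of_zero_le (show 0 ≤ max |x.1| |x.2| by
        have := le_max_left |x.1| |x.2|; omega)
      have hle : |x.1| ≤ (N:ℤ) := by rw [← hN]; exact le_max_left _ _
      have h2 := hup x N (by omega) hN.symm
      refine h2.trans (mul_le_mul_of_nonneg_left ?_ hK.le)
      apply Real.rpow_le_rpow_of_nonpos
      · have : 0 < x.1.natAbs := by omega
        exact_mod_cast this
      · have : x.1.natAbs ≤ N := by rcases abs_cases x.1 with h | h <;> omega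
        exact_mod_cast this
      · norm_num
  refine (Finset.sum_le_sum h1).trans ?_
  unfold box
  rw [Finset.sum_product]
  simp only [Finset.sum_const, Int.card_Icc, nsmul_eq_mul]
  rw [← Finset.mul_sum, sum_Icc g n]
  have e1 : (((n:ℤ) + 1 - -(n:ℤ)).toNat : ℝ) = 2 * n + 1 := by
    have : ((n:ℤ) + 1 - -(n:ℤ)).toNat = 2 * n + 1 := by omega
    rw [this]; push_cast; ring
  rw [e1]
  have h2 : g 0 + 2 * ∑ k ∈ Finset.range n, g (k + 1) ≤ (1 + 4 * K) * (n:ℝ)^(43/48 : ℝ) := by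
    have e2 : g 0 = 1 := by rw [hg]; simp
    have e3 : ∑ k ∈ Finset.range n, g (k + 1) =
        K * ∑ k ∈ Finset.range n, ((k + 1 : ℕ) : ℝ)^(-(5/48) : ℝ) := by
      rw [Finset.mul_sum]
      apply Finset.sum_congr rfl
      intro k _
      rw [hg]
      simp
    rw [e2, e3]
    have h3 := sum_pow n
    have h4 : (1:ℝ) ≤ (n:ℝ)^(43/48 : ℝ) := Real.one_le_rpow hn1 (by norm_num)
    nlinarith
  have h5 : (2 * (n:ℝ) + 1) ≤ 3 * n := by linarith
  have e4 : (n:ℝ)^(91/48 : ℝ) = n * (n:ℝ)^(43/48 : ℝ) := by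
    nth_rewrite 2 [← Real.rpow_one (n:ℝ)]
    rw [← Real.rpow_add hn0]; norm_num
  rw [e4]
  have h6 : 0 ≤ (n:ℝ)^(43/48 : ℝ) := by positivity
  calc (2 * (n:ℝ) + 1) * (g 0 + 2 * ∑ k ∈ Finset.range n, g (k + 1))
      ≤ (2 * (n:ℝ) + 1) * ((1 + 4 * K) * (n:ℝ)^(43/48 : ℝ)) :=
        mul_le_mul_of_nonneg_left h2 (by positivity)
    _ ≤ (3 * n) * ((1 + 4 * K) * (n:ℝ)^(43/48 : ℝ)) :=
        mul_le_mul_of_nonneg_right h5 (by positivity)
    _ = _ := by ring

theorem vol_lower : ∃ c : ℝ, 0 < c ∧ ∀ n : ℕ, 1 ≤ n →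
    c * (n:ℝ)^(91/48 : ℝ) ≤ ∫ U, ((region U ∩ ↑(box n)).ncard : ℝ) ∂wlaw := by
  obtain ⟨c, hc, hlow⟩ := one_lower
  refine ⟨c, hc, ?_⟩
  intro n hn
  have hn0 : (0:ℝ) < n := by exact_mod_cast hn
  rw [vol_eq]
  have hsub : Finset.Icc (1:ℤ) n ×ˢ Finset.Icc (1:ℤ) n ⊆ box n := by
    intro x hx
    unfold box
    simp only [Finset.mem_product, Finset.mem_Icc] at hx ⊢
    omega
  have h1 : ∀ x ∈ Finset.Icc (1:ℤ) n ×ˢ Finset.Icc (1:ℤ) n, c * (n:ℝ)^(-(5/48) : ℝ) ≤
      wlaw.real {U | x ∈ region U} := by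
    intro x hx
    simp only [Finset.mem_product, Finset.mem_Icc] at hx
    have e1 : |x.1| = x.1 := abs_of_nonneg (by omega)
    have e2 : |x.2| = x.2 := abs_of_nonneg (by omega)
    obtain ⟨N, hN⟩ := Int.eq_ofNat_of_zero_le (show 0 ≤ max |x.1| |x.2| by
      have := le_max_left |x.1| |x.2|; omega)
    have h3 : max |x.1| |x.2| ≤ n := by
      rw [e1, e2]; exact max_le (by omega) (by omega)
    have h4 : 1 ≤ max |x.1| |x.2| := by
      have := le_max_left |x.1| |x.2|; omega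
    have h2 := hlow x N (by omega) hN.symm
    refine le_trans (mul_le_mul_of_nonneg_left ?_ hc.le) h2
    apply Real.rpow_le_rpow_of_nonpos
    · have : 0 < N := by omega
      exact_mod_cast this
    · have : N ≤ n := by omega
      exact_mod_cast this
    · norm_num
  have h2 := Finset.sum_le_sum_of_subset_of_nonneg (f := fun x => wlaw.real {U | x ∈ region U})
    hsub (fun x _ _ => measureReal_nonneg)
  refine le_trans ?_ h2
  refine le_trans ?_ (Finset.sum_le_sum h1)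
  rw [Finset.sum_const, Finset.card_product, Int.card_Icc, nsmul_eq_mul]
  have e1 : ((n:ℤ) + 1 - 1).toNat = n := by omega
  rw [e1]
  have e4 : (n:ℝ)^(91/48 : ℝ) = (n:ℝ)^(2:ℝ) * (n:ℝ)^(-(5/48) : ℝ) := by
    rw [← Real.rpow_add hn0]; norm_num
  rw [e4, Real.rpow_two]
  push_cast
  apply le_of_eq
  ring

end Pool.Agent.Helper911.Inv
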